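import Mathlib

namespace Pool.Agent.Lib.MP_1e894a_co

open Real

/-- The closed regular `k`-gon with centre `c` and vertices `c + a * exp (2 π i j / k)`. -/
noncomputable def gon (k : ℕ) (c a : ℂ) : Set ℂ :=
  convexHull ℝ (Set.range fun j : Fin k =>
    c + a * Complex.exp (2 * (π : ℂ) * Complex.I * ((j : ℕ) : ℂ) / (k : ℂ)))

/-- `Q` is a regular `k`-gon of any position, orientation and (positive) size. -/
def IsRegularGon (k : ℕ) (Q : Set ℂ) : Prop :=
  ∃ c a : ℂ, a ≠ 0 ∧ Q = gon k c a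

/-- Lebesgue area in the plane `ℂ`. -/
noncomputable def area (S : Set ℂ) : ℝ :=
  (MeasureTheory.volume S).toReal

/-- Vector from the centre of `gon n c a` to the midpoint of its side from vertex `l` to
vertex `l + 1`. -/
noncomputable def mid (n : ℕ) (a : ℂ) (l : ℕ) : ℂ :=
  a * (Complex.exp (2 * (π : ℂ) * Complex.I * (l : ℂ) / (n : ℂ)) +
    Complex.exp (2 * (π : ℂ) * Complex.I * ((l : ℂ) + 1) / (n : ℂ))) / 2

/-- The inverse `p` of `m` modulo `n` of least absolute value (used only for coprime `m, n`). -/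
def invMod (m n : ℕ) : ℤ :=
  ((m : ZMod n)⁻¹).valMinAbs

/-- `α = 2 π p / n` with `p = invMod m n`. -/
noncomputable def alpha (m n : ℕ) : ℝ :=
  2 * π * (invMod m n : ℝ) / n

/-- `ε = 2 π / (m n)`. -/
noncomputable def eps (m n : ℕ) : ℝ :=
  2 * π / (m * n)

/-- `D = ⌊n / (2 |p|)⌋`. -/
def dInt (m n : ℕ) : ℕ :=
  n / (2 * (invMod m n).natAbs)

/-- `V(s) = (cos sα cos (s+1)ε - cos (s+1)α cos sε) / (cos sα - cos (s+1)α)`. -/
noncomputable def vFun (m n : ℕ) (s : ℝ) : ℝ :=
  (cos (s * alpha m n) * cos ((s + 1) * eps m n) - cos ((s + 1) * alpha m n) * cos (s * eps m n)) /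
    (cos (s * alpha m n) - cos ((s + 1) * alpha m n))

/-- `ρ(s) = (cos sε - cos (s+1)ε) / (cos sα - cos (s+1)α)`. -/
noncomputable def rhoFun (m n : ℕ) (s : ℝ) : ℝ :=
  (cos (s * eps m n) - cos ((s + 1) * eps m n)) /
    (cos (s * alpha m n) - cos ((s + 1) * alpha m n))

/-- Circumradius of the largest `m`-gon in units of the inradius of the `n`-gon. -/
noncomputable def radius (m n : ℕ) : ℝ :=
  if Nat.Coprime m n then
    1 / min (vFun m n ((dInt m n : ℝ) / 2)) (vFun m n (((dInt m n : ℝ) - 1) / 2))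
  else 1 / cos (π / (Nat.lcm m n : ℝ))

/-- The formula for `A(m,n)`. -/
noncomputable def bestRatio (m n : ℕ) : ℝ :=
  m * sin (2 * π / m) * radius m n ^ 2 / (2 * n * tan (π / n))

/-- Optimal positions `(centre, first vertex - centre)` in the frame in which the `n`-gon has
centre `0` and a side midpoint at `1`. -/
noncomputable def positions (m n : ℕ) : Set (ℂ × ℂ) :=
  if Nat.Coprime m n then
    {x | ∃ s : ℝ, (s = (dInt m n : ℝ) / 2 ∨ s = ((dInt m n : ℝ) - 1) / 2) ∧
      1 / vFun m n s = radius m n ∧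
      x = (-((rhoFun m n s * radius m n : ℝ) : ℂ) *
              Complex.exp (((s * alpha m n : ℝ) : ℂ) * Complex.I),
            ((radius m n : ℝ) : ℂ) * Complex.exp (((s * eps m n : ℝ) : ℂ) * Complex.I))}
  else
    {(0, ((radius m n : ℝ) : ℂ) *
      Complex.exp (((π / (Nat.lcm m n : ℝ) : ℝ) : ℂ) * Complex.I))}

end Pool.Agent.Lib.MP_1e894a_co
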