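import Mathlib
import Pool.Agent.Lib.MP_1e894a_co.Defs

namespace Pool.Agent.Lib.MP_1e894a_co

open Real MeasureTheory

noncomputable def E (x : ℝ) : ℂ := Complex.exp ((x : ℂ) * Complex.I)

@[simp] lemma E_re (x : ℝ) : (E x).re = cos x := Complex.exp_ofReal_mul_I_re x
@[simp] lemma E_im (x : ℝ) : (E x).im = sin x := Complex.exp_ofReal_mul_I_im x

lemma E_add (x y : ℝ) : E (x + y) = E x * E y := by
  unfold E; rw [← Complex.exp_add]; congr 1; push_cast; ring

lemma E_ne_zero (x : ℝ) : E x ≠ 0 := Complex.exp_ne_zero _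

lemma norm_E (x : ℝ) : ‖E x‖ = 1 := Complex.norm_exp_ofReal_mul_I x

lemma E_add_int (x : ℝ) (q : ℤ) : E (x + q * (2 * π)) = E x := by
  apply Complex.ext
  · simp [cos_add_int_mul_two_pi]
  · simp [sin_add_int_mul_two_pi]

lemma E_zero : E 0 = 1 := by simp [E]

lemma vertex_eq (k : ℕ) (x : ℝ) :
    Complex.exp (2 * (π : ℂ) * Complex.I * (x : ℂ) / (k : ℂ)) = E (2 * π * x / k) := by
  unfold E; congr 1; push_cast; ring

lemma gon_eq (k : ℕ) (hk : 0 < k) (c a : ℂ) :
    gon k c a = convexHull ℝ (Set.range fun j : ℤ => c + a * E (2 * π * j / k)) := by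
  unfold gon
  congr 1
  ext z
  constructor
  · rintro ⟨j, rfl⟩
    refine ⟨(j : ℕ), ?_⟩
    have := vertex_eq k ((j : ℕ) : ℝ)
    simp only [Complex.ofReal_natCast] at this
    simp only [this, Int.cast_natCast]
  · rintro ⟨j, rfl⟩
    have hk' : (0 : ℤ) < k := by exact_mod_cast hk
    have h1 : 0 ≤ j % k := Int.emod_nonneg _ hk'.ne'
    have h2 : j % k < k := Int.emod_lt_of_pos _ hk'
    refine ⟨⟨(j % k).toNat, by omega⟩, ?_⟩
    have := vertex_eq k (((j % k).toNat : ℕ) : ℝ)
    simp only [Complex.ofReal_natCast] at this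
    simp only [this]
    congr 2
    have h3 : (((j % k).toNat : ℕ) : ℝ) = ((j % k : ℤ) : ℝ) := by
      rw [← Int.cast_natCast, Int.toNat_of_nonneg h1]
    have h4 : (j : ℝ) = ((j % k : ℤ) : ℝ) + k * ((j / k : ℤ) : ℝ) := by
      exact_mod_cast (Int.emod_add_mul_ediv j k).symm
    have hk0 : (k : ℝ) ≠ 0 := by positivity
    rw [h3, ← E_add_int _ (j / k)]
    congr 1
    conv_rhs => rw [h4]
    field_simp

lemma gon_image (k : ℕ) (c a c' a' : ℂ) :
    (fun z => c + a * z) '' gon k c' a' = gon k (c + a * c') (a * a') := by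
  unfold gon
  let f : ℂ →ᵃ[ℝ] ℂ := AffineMap.const ℝ ℂ c + (LinearMap.mulLeft ℝ a).toAffineMap
  have hf : (fun z => c + a * z) = f := by
    ext z; simp [f]
  rw [hf, AffineMap.image_convexHull, ← Set.range_comp, ← hf]
  congr 2
  ext j
  simp only [Function.comp]; ring

lemma cos_nearest {k : ℕ} (hk : 0 < k) {y : ℝ} (hy : |y| ≤ π / k) (l : ℤ) :
    cos (y + 2 * π * l / k) ≤ cos y := by
  have hk' : (0 : ℤ) < k := by exact_mod_cast hk
  have hk0 : (0 : ℝ) < k := by positivity
  have h1 : 0 ≤ l % k := Int.emod_nonneg _ hk'.ne'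
  have h2 : l % k < k := Int.emod_lt_of_pos _ hk'
  have h4 : (l : ℝ) = ((l % k : ℤ) : ℝ) + k * ((l / k : ℤ) : ℝ) := by
    exact_mod_cast (Int.emod_add_mul_ediv l k).symm
  set r : ℤ := l % k
  have e1 : y + 2 * π * l / k = y + 2 * π * r / k + ((l / k : ℤ) : ℝ) * (2 * π) := by
    conv_lhs => rw [h4]
    field_simp
    ring
  rw [e1, cos_add_int_mul_two_pi]
  rcases h1.eq_or_lt with h | h
  · rw [← h]; simp
  have r1 : (1 : ℝ) ≤ r := by exact_mod_cast h
  have r2 : (r : ℝ) + 1 ≤ k := by exact_mod_cast h2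
  have hpi := pi_pos
  rw [abs_le] at hy
  have b1 : π / k ≤ π * r / k := by
    apply div_le_div_of_nonneg_right _ hk0.le; nlinarith
  have b2 : π * r / k + π / k ≤ π := by
    rw [← add_div, div_le_iff₀ hk0]; nlinarith
  have b3 : 0 < π / k := by positivity
  have s1 : 0 ≤ sin (y + π * r / k) := sin_nonneg_of_nonneg_of_le_pi (by linarith) (by linarith)
  have s2 : 0 ≤ sin (π * r / k) := sin_nonneg_of_nonneg_of_le_pi (by linarith) (by linarith)
  have e2 := cos_sub_cos (y + 2 * π * r / k) y
  have e3 : (y + 2 * π * r / k + y) / 2 = y + π * r / k := by ring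
  have e4 : (y + 2 * π * r / k - y) / 2 = π * r / k := by ring
  rw [e3, e4] at e2
  nlinarith [mul_nonneg s1 s2]

/-- support functional of side `j` -/
noncomputable def sup (k : ℕ) (j : ℤ) (z : ℂ) : ℝ := (z * E (-((2 * j + 1) * π / k))).re

lemma sup_lin (k : ℕ) (j : ℤ) (s t : ℝ) (z w : ℂ) :
    sup k j (s * z + t * w) = s * sup k j z + t * sup k j w := by
  unfold sup; simp; ring

lemma sup_E (k : ℕ) (j : ℤ) (x : ℝ) : sup k j (E x) = cos (x - (2 * j + 1) * π / k) := by
  unfold sup; rw [← E_add, E_re]; congr 1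

lemma sup_vertex_le {k : ℕ} (hk : 0 < k) (i j : ℤ) :
    sup k j (E (2 * π * i / k)) ≤ cos (π / k) := by
  rw [sup_E]
  have h := cos_nearest hk (y := -(π / k)) (by rw [abs_neg, abs_of_nonneg (by positivity)]) (i - j)
  rw [cos_neg] at h
  convert h using 2
  push_cast; ring

lemma sup_vertex_self (k : ℕ) (j : ℤ) : sup k j (E (2 * π * j / k)) = cos (π / k) := by
  rw [sup_E, ← cos_neg]; congr 1; ring

lemma sup_vertex_succ (k : ℕ) (j : ℤ) : sup k j (E (2 * π * (j + 1) / k)) = cos (π / k) := by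
  rw [sup_E]; congr 1; ring

def tri (z w : ℂ) : Set ℂ := {u | ∃ s t : ℝ, 0 ≤ s ∧ 0 ≤ t ∧ s + t ≤ 1 ∧ u = s * z + t * w}

lemma cos_pi_div_pos {k : ℕ} (hk : 3 ≤ k) : 0 < cos (π / k) := by
  have : (3 : ℝ) ≤ k := by exact_mod_cast hk
  have hpi := pi_pos
  apply cos_pos_of_mem_Ioo
  constructor
  · have : 0 < π / k := by positivity
    linarith
  · rw [div_lt_div_iff₀ (by positivity) (by norm_num)]; nlinarith

lemma sin_pi_div_pos {k : ℕ} (hk : 3 ≤ k) : 0 < sin (π / k) := by
  have : (3 : ℝ) ≤ k := by exact_mod_cast hk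
  have hpi := pi_pos
  apply sin_pos_of_pos_of_lt_pi (by positivity)
  rw [div_lt_iff₀ (by positivity)]; nlinarith

lemma sin_two_pi_div_pos {k : ℕ} (hk : 3 ≤ k) : 0 < sin (2 * π / k) := by
  have h : 2 * π / k = 2 * (π / k) := by ring
  rw [h, sin_two_mul]
  have := cos_pi_div_pos hk; have := sin_pi_div_pos hk
  positivity

lemma mem_tri_of_sup {k : ℕ} (hk : 3 ≤ k) (z : ℂ) (h : ∀ j : ℤ, sup k j z ≤ cos (π / k)) :
    ∃ j : ℤ, z ∈ tri (E (2 * π * j / k)) (E (2 * π * (j + 1) / k)) := by
  have hk0 : (0 : ℝ) < k := by positivity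
  have hk3 : (3 : ℝ) ≤ k := by exact_mod_cast hk
  have hpi := pi_pos
  set φ := Complex.arg z
  set ρ := ‖z‖
  have hz : z = ρ * E φ := (Complex.norm_mul_exp_arg_mul_I z).symm
  set j : ℤ := ⌊φ * k / (2 * π)⌋
  have j1 : (j : ℝ) ≤ φ * k / (2 * π) := Int.floor_le _
  have j2 : φ * k / (2 * π) < j + 1 := Int.lt_floor_add_one _
  have j3 : 2 * π * j / k ≤ φ := by
    rw [div_le_iff₀ hk0]; rw [le_div_iff₀ (by positivity)] at j1; linarith
  have j4 : φ ≤ 2 * π * (j + 1) / k := by
    rw [le_div_iff₀ hk0]; rw [div_lt_iff₀ (by positivity)] at j2; linarith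
  have j5 : 2 * π * (j + 1) / k = 2 * π * j / k + 2 * π / k := by ring
  have j6 : 2 * π / k ≤ π := by rw [div_le_iff₀ hk0]; nlinarith
  have hS := sin_two_pi_div_pos hk
  set A := 2 * π * j / k
  set B := 2 * π * (j + 1) / k
  have hAB : sin (2 * π / k) = sin (B - A) := by congr 1; rw [j5]; ring
  have s1 : 0 ≤ sin (B - φ) := sin_nonneg_of_nonneg_of_le_pi (by linarith) (by linarith)
  have s2 : 0 ≤ sin (φ - A) := sin_nonneg_of_nonneg_of_le_pi (by linarith) (by linarith)
  have hρ : 0 ≤ ρ := norm_nonneg _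
  have key : z = ((ρ * sin (B - φ) / sin (2 * π / k) : ℝ) : ℂ) * E A +
      ((ρ * sin (φ - A) / sin (2 * π / k) : ℝ) : ℂ) * E B := by
    rw [hz]
    have hS' := hS.ne'
    apply Complex.ext
    · simp only [Complex.add_re, Complex.re_ofReal_mul, E_re]
      field_simp
      rw [hAB]; simp only [sin_sub]; ring
    · simp only [Complex.add_im, Complex.im_ofReal_mul, E_im]
      field_simp
      rw [hAB]; simp only [sin_sub]; ring
  refine ⟨j, _, _, by positivity, by positivity, ?_, key⟩
  have h1 := h j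
  rw [key, sup_lin, sup_vertex_self, sup_vertex_succ] at h1
  have hc := cos_pi_div_pos hk
  exact le_of_mul_le_mul_right (by linarith) hc

lemma zero_mem_gon {k : ℕ} (hk : 3 ≤ k) : (0 : ℂ) ∈ gon k 0 1 := by
  have hk0 : (0 : ℝ) < k := by positivity
  have hprim := Complex.isPrimitiveRoot_exp k (by omega)
  have hsum := hprim.geom_sum_eq_zero (by omega)
  unfold gon
  have hc := convex_convexHull ℝ (Set.range fun j : Fin k =>
    (0 : ℂ) + 1 * Complex.exp (2 * (π : ℂ) * Complex.I * ((j : ℕ) : ℂ) / (k : ℂ)))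
  have := hc.sum_mem (t := Finset.univ) (w := fun _ : Fin k => (1 / k : ℝ))
    (z := fun j : Fin k =>
      (0 : ℂ) + 1 * Complex.exp (2 * (π : ℂ) * Complex.I * ((j : ℕ) : ℂ) / (k : ℂ)))
    (fun _ _ => by positivity) (by simp; field_simp)
    (fun j _ => subset_convexHull ℝ _ ⟨j, rfl⟩)
  convert this using 1
  rw [← Finset.smul_sum]
  have : ∑ j : Fin k, ((0 : ℂ) + 1 *
      Complex.exp (2 * (π : ℂ) * Complex.I * ((j : ℕ) : ℂ) / (k : ℂ))) = 0 := by
    rw [← Fin.sum_univ_eq_sum_range (fun i => Complex.exp (2 * π * Complex.I / k) ^ i)] at hsum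
    refine Eq.trans ?_ hsum
    apply Finset.sum_congr rfl
    intro j _
    rw [← Complex.exp_nat_mul]; simp only [zero_add, one_mul]; congr 1; ring
  rw [this, smul_zero]

lemma tri_subset_gon {k : ℕ} (hk : 3 ≤ k) (j : ℤ) :
    tri (E (2 * π * j / k)) (E (2 * π * (j + 1) / k)) ⊆ gon k 0 1 := by
  rintro z ⟨s, t, hs, ht, hst, rfl⟩
  have h0 := zero_mem_gon hk
  have hconv : Convex ℝ (gon k 0 1) := convex_convexHull ℝ _
  have hv : ∀ i : ℤ, E (2 * π * i / k) ∈ gon k 0 1 := by
    intro i
    rw [gon_eq k (by omega)]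
    exact subset_convexHull ℝ _ ⟨i, by simp⟩
  have h1 := hv j
  have h2 := hv (j + 1)
  push_cast at h2
  have := hconv.sum_mem (t := (Finset.univ : Finset (Fin 3))) (w := ![s, t, 1 - s - t])
    (z := ![E (2 * π * j / k), E (2 * π * (j + 1) / k), 0])
    (by intro i _; fin_cases i <;> simp <;> linarith)
    (by simp [Fin.sum_univ_three])
    (by intro i _; fin_cases i <;> simp [h0, h1, h2])
  simpa [Fin.sum_univ_three] using this

lemma mem_gon_iff {k : ℕ} (hk : 3 ≤ k) (z : ℂ) :
    z ∈ gon k 0 1 ↔ ∀ j : ℤ, sup k j z ≤ cos (π / k) := by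
  constructor
  · intro hz j
    rw [gon_eq k (by omega)] at hz
    have hconv : Convex ℝ {z : ℂ | sup k j z ≤ cos (π / k)} := by
      intro x hx y hy a b ha hb hab
      simp only [Set.mem_ofPred_eq, Complex.real_smul] at *
      rw [sup_lin]
      have := mul_le_mul_of_nonneg_left hx ha
      have := mul_le_mul_of_nonneg_left hy hb
      have : a * cos (π / k) + b * cos (π / k) = cos (π / k) := by rw [← add_mul, hab, one_mul]
      linarith
    refine convexHull_min ?_ hconv hz
    rintro _ ⟨i, rfl⟩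
    simpa using sup_vertex_le (by omega) i j
  · intro h
    obtain ⟨j, hj⟩ := mem_tri_of_sup hk z h
    exact tri_subset_gon hk j hj

/-! ### areas -/

noncomputable def linMap (z w : ℂ) : ℂ →ₗ[ℝ] ℂ :=
  Complex.reLm.smulRight z + Complex.imLm.smulRight w

lemma linMap_apply (z w u : ℂ) : linMap z w u = u.re * z + u.im * w := by
  simp [linMap]

lemma det_linMap (z w : ℂ) : LinearMap.det (linMap z w) = z.re * w.im - z.im * w.re := by
  rw [← LinearMap.det_toMatrix Complex.basisOneI, Matrix.det_fin_two]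
  simp [LinearMap.toMatrix_apply, linMap_apply]
  ring

def tri0 : Set ℂ := {u | 0 ≤ u.re ∧ 0 ≤ u.im ∧ u.re + u.im ≤ 1}

lemma tri_eq_image (z w : ℂ) : tri z w = linMap z w '' tri0 := by
  ext u
  constructor
  · rintro ⟨s, t, hs, ht, hst, rfl⟩
    exact ⟨⟨s, t⟩, ⟨hs, ht, hst⟩, by rw [linMap_apply]⟩
  · rintro ⟨v, ⟨h1, h2, h3⟩, rfl⟩
    exact ⟨v.re, v.im, h1, h2, h3, linMap_apply _ _ _⟩

lemma isCompact_tri0 : IsCompact tri0 := by
  apply Metric.isCompact_of_isClosed_isBounded
  · exact (isClosed_le continuous_const Complex.continuous_re).inter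
      ((isClosed_le continuous_const Complex.continuous_im).inter
        (isClosed_le (Complex.continuous_re.add Complex.continuous_im) continuous_const))
  · rw [isBounded_iff_forall_norm_le]
    refine ⟨1, fun u hu => ?_⟩
    obtain ⟨h1, h2, h3⟩ := hu
    have := Complex.norm_le_abs_re_add_abs_im u
    rw [abs_of_nonneg h1, abs_of_nonneg h2] at this
    linarith

lemma volume_tri0 : volume tri0 = ENNReal.ofReal (1 / 2) := by
  let S : Set (ℝ × ℝ) := {p | 0 ≤ p.1 ∧ 0 ≤ p.2 ∧ p.1 + p.2 ≤ 1}
  have hS : MeasurableSet S := by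
    apply IsClosed.measurableSet
    exact (isClosed_le continuous_const continuous_fst).inter
      ((isClosed_le continuous_const continuous_snd).inter
        (isClosed_le (continuous_fst.add continuous_snd) continuous_const))
  have h1 : tri0 = Complex.measurableEquivRealProd ⁻¹' S := rfl
  rw [h1, Complex.volume_preserving_equiv_real_prod.measure_preimage hS.nullMeasurableSet,
    Measure.volume_eq_prod, Measure.prod_apply hS]
  have h2 : ∀ x : ℝ, volume (Prod.mk x ⁻¹' S) =
      (Set.Icc (0 : ℝ) 1).indicator (fun x => ENNReal.ofReal (1 - x)) x := by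
    intro x
    by_cases hx : x ∈ Set.Icc (0 : ℝ) 1
    · rw [Set.indicator_of_mem hx]
      have : Prod.mk x ⁻¹' S = Set.Icc 0 (1 - x) := by
        ext y
        simp only [S, Set.mem_preimage, Set.mem_ofPred_eq, Set.mem_Icc]
        constructor
        · rintro ⟨_, b, c⟩; exact ⟨b, by linarith⟩
        · rintro ⟨b, c⟩; exact ⟨hx.1, b, by linarith⟩
      rw [this]; simp
    · rw [Set.indicator_of_notMem hx]
      have : Prod.mk x ⁻¹' S = ∅ := by
        ext y
        simp only [S, Set.mem_preimage, Set.mem_ofPred_eq, Set.mem_empty_iff_false, iff_false]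
        rintro ⟨a, b, c⟩
        exact hx ⟨a, by linarith⟩
      rw [this]; simp
  simp_rw [h2]
  rw [lintegral_indicator measurableSet_Icc, ← ofReal_integral_eq_lintegral_ofReal]
  · congr 1
    rw [integral_Icc_eq_integral_Ioc, ← intervalIntegral.integral_of_le zero_le_one]
    rw [intervalIntegral.integral_sub (by simp) (by simp)]
    simp; norm_num
  · exact (continuous_const.sub continuous_id).integrableOn_Icc
  · apply (ae_restrict_iff' measurableSet_Icc).mpr
    filter_upwards with x hx
    simpa using hx.2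

lemma volume_tri (z w : ℂ) :
    volume (tri z w) = ENNReal.ofReal (|z.re * w.im - z.im * w.re| / 2) := by
  rw [tri_eq_image, Measure.addHaar_image_linearMap, det_linMap, volume_tri0,
    ← ENNReal.ofReal_mul (abs_nonneg _)]
  congr 1; ring

lemma measurableSet_tri (z w : ℂ) : MeasurableSet (tri z w) := by
  rw [tri_eq_image]
  exact (isCompact_tri0.image (linMap z w).continuous_of_finiteDimensional).isClosed.measurableSet

lemma volume_line (z : ℂ) : volume (Submodule.span ℝ {z} : Set ℂ) = 0 := by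
  apply Measure.addHaar_submodule
  intro h
  have h1 : Module.finrank ℝ (Submodule.span ℝ ({z} : Set ℂ)) ≤ 1 := by
    simpa using finrank_span_le_card (R := ℝ) ({z} : Set ℂ)
  rw [h, finrank_top, Complex.finrank_real_complex] at h1
  omega

lemma sup_strict {k : ℕ} (hk : 3 ≤ k) {i j : ℤ} (h1 : j < i) (h2 : i < j + k) :
    sup k j (E (2 * π * i / k)) < cos (π / k) ∨
      sup k j (E (2 * π * (i + 1) / k)) < cos (π / k) := by
  have hk0 : (0 : ℝ) < k := by positivity
  have hpi := pi_pos
  rw [sup_E, sup_E]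
  obtain ⟨l, rfl⟩ : ∃ l : ℤ, i = j + l := ⟨i - j, by ring⟩
  have l1 : 1 ≤ l := by omega
  have l2 : l + 1 ≤ k := by omega
  have sp : ∀ x : ℝ, 1 ≤ x → x + 1 ≤ k → 0 < sin (π * x / k) := by
    intro x a b
    apply sin_pos_of_pos_of_lt_pi (by positivity)
    rw [div_lt_iff₀ hk0]; nlinarith
  have s0 := sp l (by exact_mod_cast l1) (by exact_mod_cast l2)
  rcases (show 2 ≤ l ∨ l + 2 ≤ k by omega) with h | h
  · left
    have s1 := sp (l - 1) (by have : (2 : ℝ) ≤ l := by exact_mod_cast h
                              linarith) (by have : (l : ℝ) + 1 ≤ k := by exact_mod_cast l2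
                                            linarith)
    have e := cos_sub_cos (2 * π * ((j + l : ℤ) : ℝ) / k - (2 * j + 1) * π / k) (π / k)
    have e1 : (2 * π * ((j + l : ℤ) : ℝ) / k - (2 * j + 1) * π / k + π / k) / 2 = π * l / k := by
      push_cast; ring
    have e2 : (2 * π * ((j + l : ℤ) : ℝ) / k - (2 * j + 1) * π / k - π / k) / 2 =
        π * (l - 1) / k := by
      push_cast; ring
    rw [e1, e2] at e
    nlinarith [mul_pos s0 s1]
  · right
    have s1 := sp (l + 1) (by have : (1 : ℝ) ≤ l := by exact_mod_cast l1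
                              linarith) (by have : (l : ℝ) + 2 ≤ k := by exact_mod_cast h
                                            linarith)
    have e := cos_sub_cos (2 * π * (((j + l : ℤ) : ℝ) + 1) / k - (2 * j + 1) * π / k) (π / k)
    have e1 : (2 * π * (((j + l : ℤ) : ℝ) + 1) / k - (2 * j + 1) * π / k + π / k) / 2 =
        π * (l + 1) / k := by
      push_cast; ring
    have e2 : (2 * π * (((j + l : ℤ) : ℝ) + 1) / k - (2 * j + 1) * π / k - π / k) / 2 =
        π * l / k := by
      push_cast; ring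
    rw [e1, e2] at e
    nlinarith [mul_pos s0 s1]

lemma tri_aedisjoint {k : ℕ} (hk : 3 ≤ k) {i j : ℤ} (h1 : j < i) (h2 : i < j + k) :
    AEDisjoint volume (tri (E (2 * π * i / k)) (E (2 * π * (i + 1) / k)))
      (tri (E (2 * π * j / k)) (E (2 * π * (j + 1) / k))) := by
  unfold AEDisjoint
  apply measure_mono_null (t := (Submodule.span ℝ {E (2 * π * i / k)} : Set ℂ) ∪
    (Submodule.span ℝ {E (2 * π * (i + 1) / k)} : Set ℂ))
  · rintro z ⟨⟨s, t, hs, ht, hst, hz⟩, ⟨s', t', hs', ht', hst', hz'⟩⟩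
    rcases hs.eq_or_lt with a | a
    · right
      rw [SetLike.mem_coe, Submodule.mem_span_singleton]
      exact ⟨t, by rw [hz, ← a]; simp⟩
    rcases ht.eq_or_lt with b | b
    · left
      rw [SetLike.mem_coe, Submodule.mem_span_singleton]
      exact ⟨s, by rw [hz, ← b]; simp⟩
    exfalso
    have p1 : sup k i z = s * cos (π / k) + t * cos (π / k) := by
      rw [hz, sup_lin, sup_vertex_self, sup_vertex_succ]
    have p2 : sup k j z = s' * cos (π / k) + t' * cos (π / k) := by
      rw [hz', sup_lin, sup_vertex_self, sup_vertex_succ]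
    have q1 : sup k i z ≤ s' * cos (π / k) + t' * cos (π / k) := by
      rw [hz', sup_lin]
      have u1 := sup_vertex_le (k := k) (by omega) j i
      have u2 := sup_vertex_le (k := k) (by omega) (j + 1) i
      push_cast at u2
      have := mul_le_mul_of_nonneg_left u1 hs'
      have := mul_le_mul_of_nonneg_left u2 ht'
      linarith
    have q2 : sup k j z < s * cos (π / k) + t * cos (π / k) := by
      rw [hz, sup_lin]
      have u1 := sup_vertex_le (k := k) (by omega) i j
      have u2 := sup_vertex_le (k := k) (by omega) (i + 1) j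
      push_cast at u2
      have v1 := mul_le_mul_of_nonneg_left u1 hs
      have v2 := mul_le_mul_of_nonneg_left u2 ht
      rcases sup_strict hk h1 h2 with h | h
      · have := mul_lt_mul_of_pos_left h a
        linarith
      · have := mul_lt_mul_of_pos_left h b
        linarith
    linarith
  · exact measure_union_null (volume_line _) (volume_line _)

lemma volume_gon01 {k : ℕ} (hk : 3 ≤ k) :
    volume (gon k 0 1) = ENNReal.ofReal (k * sin (2 * π / k) / 2) := by
  have hk0 : (0 : ℝ) < k := by positivity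
  have hk' : (0 : ℤ) < k := by exact_mod_cast (show 0 < k by omega)
  have hU : gon k 0 1 = ⋃ j ∈ Finset.range k,
      tri (E (2 * π * (j : ℤ) / k)) (E (2 * π * ((j : ℤ) + 1) / k)) := by
    apply Set.Subset.antisymm
    · intro z hz
      obtain ⟨j, hj⟩ := mem_tri_of_sup hk z ((mem_gon_iff hk z).mp hz)
      have h1 : 0 ≤ j % k := Int.emod_nonneg _ hk'.ne'
      have h2 : j % k < k := Int.emod_lt_of_pos _ hk'
      have h4 : (j : ℝ) = ((j % k : ℤ) : ℝ) + k * ((j / k : ℤ) : ℝ) := by
        exact_mod_cast (Int.emod_add_mul_ediv j k).symm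
      simp only [Set.mem_iUnion, Finset.mem_range]
      refine ⟨(j % k).toNat, by omega, ?_⟩
      rw [Int.toNat_of_nonneg h1]
      have e1 : E (2 * π * j / k) = E (2 * π * ((j % k : ℤ) : ℝ) / k) := by
        rw [← E_add_int (2 * π * ((j % k : ℤ) : ℝ) / k) (j / k)]
        congr 1
        conv_lhs => rw [h4]
        field_simp
      have e2 : E (2 * π * (j + 1) / k) = E (2 * π * (((j % k : ℤ) : ℝ) + 1) / k) := by
        rw [← E_add_int (2 * π * (((j % k : ℤ) : ℝ) + 1) / k) (j / k)]
        congr 1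
        conv_lhs => rw [h4]
        field_simp
        ring
      rw [← e1, ← e2]; exact hj
    · simp only [Set.iUnion_subset_iff]
      intro j _
      exact tri_subset_gon hk j
  rw [hU, measure_biUnion_finset₀]
  · have hS := sin_two_pi_div_pos hk
    have : ∀ j ∈ Finset.range k,
        volume (tri (E (2 * π * ((j : ℕ) : ℤ) / k)) (E (2 * π * (((j : ℕ) : ℤ) + 1) / k))) =
        ENNReal.ofReal (sin (2 * π / k) / 2) := by
      intro j _
      rw [volume_tri]
      congr 2
      simp only [E_re, E_im]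
      have : cos (2 * π * ((j : ℕ) : ℤ) / k) * sin (2 * π * (((j : ℕ) : ℤ) + 1) / k) -
          sin (2 * π * ((j : ℕ) : ℤ) / k) * cos (2 * π * (((j : ℕ) : ℤ) + 1) / k) =
          sin (2 * π / k) := by
        have e : 2 * π / k = 2 * π * (((j : ℕ) : ℤ) + 1) / k - 2 * π * ((j : ℕ) : ℤ) / k := by
          ring
        rw [e, sin_sub]; ring
      rw [this, abs_of_pos hS]
    rw [Finset.sum_congr rfl this, Finset.sum_const, Finset.card_range, nsmul_eq_mul,
      ← ENNReal.ofReal_natCast, ← ENNReal.ofReal_mul hk0.le]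
    congr 1; ring
  · intro i hi j hj hij
    simp only [Finset.coe_range, Set.mem_Iio] at hi hj
    rcases lt_or_gt_of_ne hij with h | h
    · exact (tri_aedisjoint hk (i := j) (j := i) (by omega) (by omega)).symm
    · exact tri_aedisjoint hk (i := i) (j := j) (by omega) (by omega)
  · intro j _
    exact (measurableSet_tri _ _).nullMeasurableSet

lemma area_gon {k : ℕ} (hk : 3 ≤ k) (c a : ℂ) :
    area (gon k c a) = ‖a‖ ^ 2 * (k * sin (2 * π / k) / 2) := by
  have h1 : gon k c a = (fun z => c + z) '' (linMap a (a * Complex.I) '' gon k 0 1) := by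
    rw [Set.image_image]
    have := gon_image k c a 0 1
    simp only [mul_zero, add_zero, mul_one] at this
    rw [← this]
    congr 1
    ext z
    rw [linMap_apply]
    conv_lhs => rw [← Complex.re_add_im z]
    ring
  have hS := sin_two_pi_div_pos hk
  unfold area
  rw [h1, Set.image_add_left, measure_preimage_add, Measure.addHaar_image_linearMap,
    det_linMap, volume_gon01 hk, ← ENNReal.ofReal_mul (abs_nonneg _),
    ENNReal.toReal_ofReal (by positivity)]
  congr 1
  rw [Complex.sq_norm, Complex.normSq_apply]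
  simp only [Complex.mul_im, Complex.mul_re, Complex.I_re, Complex.I_im]
  rw [abs_of_nonneg (by nlinarith [mul_self_nonneg a.re, mul_self_nonneg a.im])]
  ring

end Pool.Agent.Lib.MP_1e894a_co
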