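import Mathlib

namespace Pool.Agent.Lib.MP_1e894a_co

open Real

lemma k_nonpos {e a x : ℝ} (he : 0 < e) (hea : e ≤ a) (hx : 0 ≤ x) (hxa : x * a ≤ π) :
    a * cos (x * a) * sin (x * e) - e * sin (x * a) * cos (x * e) ≤ 0 := by
  have ha : 0 < a := lt_of_lt_of_le he hea
  let k : ℝ → ℝ := fun y => a * cos (y * a) * sin (y * e) - e * sin (y * a) * cos (y * e)
  have hd : ∀ y, HasDerivAt k ((e ^ 2 - a ^ 2) * (sin (y * a) * sin (y * e))) y := by
    intro y
    have h1 : HasDerivAt (fun y : ℝ => y * a) a y := by simpa using (hasDerivAt_id y).mul_const a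
    have h2 : HasDerivAt (fun y : ℝ => y * e) e y := by simpa using (hasDerivAt_id y).mul_const e
    have h3 := ((h1.cos.const_mul a).mul h2.sin).sub ((h1.sin.const_mul e).mul h2.cos)
    exact h3.congr_deriv (by ring)
  have hanti : AntitoneOn k (Set.Icc 0 (π / a)) := by
    apply antitoneOn_of_deriv_nonpos (convex_Icc _ _)
    · exact fun y _ => (hd y).continuousAt.continuousWithinAt
    · exact fun y _ => (hd y).differentiableAt.differentiableWithinAt
    · intro y hy
      rw [interior_Icc] at hy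
      rw [(hd y).deriv]
      have hy1 : y * a ≤ π := by
        have := hy.2.le
        rwa [le_div_iff₀ ha] at this
      have hy2 : y * e ≤ π := le_trans (mul_le_mul_of_nonneg_left hea hy.1.le) hy1
      have s1 : 0 ≤ sin (y * a) := sin_nonneg_of_nonneg_of_le_pi (by have := hy.1.le; positivity) hy1
      have s2 : 0 ≤ sin (y * e) := sin_nonneg_of_nonneg_of_le_pi (by have := hy.1.le; positivity) hy2
      have : e ^ 2 - a ^ 2 ≤ 0 := by nlinarith
      exact mul_nonpos_of_nonpos_of_nonneg this (mul_nonneg s1 s2)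
  have h0 : (0 : ℝ) ∈ Set.Icc 0 (π / a) := ⟨le_rfl, by positivity⟩
  have hx' : x ∈ Set.Icc 0 (π / a) := ⟨hx, by rwa [le_div_iff₀ ha]⟩
  have := hanti h0 hx' hx
  simpa [k] using this

lemma ratio_anti {e a x y : ℝ} (he : 0 < e) (hea : e ≤ a) (hx : 0 < x) (hxy : x ≤ y)
    (hy : y * a ≤ π) (hye : y * e < π) :
    sin (y * a) * sin (x * e) ≤ sin (y * e) * sin (x * a) := by
  have ha : 0 < a := lt_of_lt_of_le he hea
  have hpos : ∀ z ∈ Set.Icc x y, 0 < sin (z * e) := by
    intro z hz
    apply sin_pos_of_pos_of_lt_pi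
    · have : 0 < z := lt_of_lt_of_le hx hz.1
      positivity
    · exact lt_of_le_of_lt (mul_le_mul_of_nonneg_right hz.2 he.le) hye
  let F : ℝ → ℝ := fun z => sin (z * a) / sin (z * e)
  have hd : ∀ z ∈ Set.Icc x y, HasDerivAt F
      ((a * cos (z * a) * sin (z * e) - e * sin (z * a) * cos (z * e)) / sin (z * e) ^ 2) z := by
    intro z hz
    have h1 : HasDerivAt (fun y : ℝ => y * a) a z := by simpa using (hasDerivAt_id z).mul_const a
    have h2 : HasDerivAt (fun y : ℝ => y * e) e z := by simpa using (hasDerivAt_id z).mul_const e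
    have h3 := h1.sin.div h2.sin (hpos z hz).ne'
    exact h3.congr_deriv (by ring)
  have hanti : AntitoneOn F (Set.Icc x y) := by
    apply antitoneOn_of_deriv_nonpos (convex_Icc _ _)
    · exact fun z hz => (hd z hz).continuousAt.continuousWithinAt
    · exact fun z hz => (hd z (interior_subset hz)).differentiableAt.differentiableWithinAt
    · intro z hz
      have hz' := interior_subset hz
      rw [(hd z hz').deriv]
      apply div_nonpos_of_nonpos_of_nonneg _ (sq_nonneg _)
      apply k_nonpos he hea (le_trans hx.le hz'.1)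
      exact le_trans (mul_le_mul_of_nonneg_right hz'.2 ha.le) hy
  have h := hanti ⟨le_rfl, hxy⟩ ⟨hxy, le_rfl⟩ hxy
  simp only [F] at h
  rw [div_le_div_iff₀ (hpos y ⟨hxy, le_rfl⟩) (hpos x ⟨le_rfl, hxy⟩)] at h
  linarith

lemma jordan {z : ℝ} (h0 : 0 ≤ z) (h1 : z ≤ π / 2) : 2 / π * z ≤ sin z := Real.mul_le_sin h0 h1

lemma lemU {e a x0 x : ℝ} (he : 0 < e) (hea : e ≤ a) (hx0 : 0 < x0) (hx : x0 ≤ x)
    (h1 : x0 * a ≤ π / 2) (h2 : x * e ≤ π / 2) :
    |sin (x * a)| * sin (x0 * e) ≤ sin (x * e) * sin (x0 * a) := by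
  have ha : 0 < a := lt_of_lt_of_le he hea
  have hpi := pi_pos
  have hxp : 0 < x := lt_of_lt_of_le hx0 hx
  rcases le_total (x * a) π with h | h
  · rw [abs_of_nonneg (sin_nonneg_of_nonneg_of_le_pi (by positivity) h)]
    exact ratio_anti he hea hx0 hx h (by linarith)
  · have a1 : |sin (x * a)| ≤ 1 := abs_sin_le_one _
    have a2 : sin (x0 * e) ≤ x0 * e := sin_le (by positivity)
    have a2' : 0 ≤ sin (x0 * e) := by
      apply sin_nonneg_of_nonneg_of_le_pi (by positivity)
      have : x0 * e ≤ x * e := mul_le_mul_of_nonneg_right hx he.le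
      linarith
    have a3 : 2 / π * (x * e) ≤ sin (x * e) := jordan (by positivity) h2
    have a4 : 2 / π * (x0 * a) ≤ sin (x0 * a) := jordan (by positivity) h1
    have a5 : (2 / π * (x * e)) * (2 / π * (x0 * a)) ≤ sin (x * e) * sin (x0 * a) :=
      mul_le_mul a3 a4 (by positivity) (le_trans (by positivity) a3)
    have a6 : x0 * e ≤ (2 / π * (x * e)) * (2 / π * (x0 * a)) := by
      have : (2 / π * (x * e)) * (2 / π * (x0 * a)) = (x0 * e) * (4 * (x * a) / π ^ 2) := by
        field_simp
        ring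
      rw [this]
      have h3 : 1 ≤ 4 * (x * a) / π ^ 2 := by
        rw [le_div_iff₀ (by positivity)]
        have := pi_le_four
        nlinarith
      have : 0 < x0 * e := by positivity
      nlinarith
    calc |sin (x * a)| * sin (x0 * e) ≤ 1 * sin (x0 * e) := mul_le_mul_of_nonneg_right a1 a2'
      _ ≤ _ := by linarith

lemma sin_ge_quarter {y : ℝ} (h0 : 0 ≤ y) (h1 : y ≤ 3 * π / 4) : y / 4 ≤ sin y := by
  have hpi := pi_pos
  have h4 := pi_le_four
  rcases le_total y (π / 2) with h | h
  · have := jordan h0 h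
    have h2 : y / 4 ≤ 2 / π * y := by
      have : 1 / 4 ≤ 2 / π := by
        rw [div_le_div_iff₀ (by norm_num) hpi]; linarith
      nlinarith
    linarith
  · rw [← sin_pi_sub]
    have h3 : sin (π / 4) ≤ sin (π - y) := by
      apply sin_le_sin_of_le_of_le_pi_div_two <;> linarith
    rw [sin_pi_div_four] at h3
    have h5 : (1.4 : ℝ) ≤ √2 := by
      apply le_sqrt_of_sq_le; norm_num
    have h6 := pi_lt_d2
    linarith

lemma lemU' {e a x0 x : ℝ} (he : 0 < e) (hea : e ≤ a) (hx0 : 0 < x0) (hx : x0 ≤ x)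
    (h1 : x0 * a ≤ 3 * π / 4) (h2 : x * e ≤ π / 2) :
    sin (x * a) * sin (x0 * e) ≤ sin (x * e) * sin (x0 * a) := by
  have ha : 0 < a := lt_of_lt_of_le he hea
  have hpi := pi_pos
  have hxp : 0 < x := lt_of_lt_of_le hx0 hx
  have a2' : 0 ≤ sin (x0 * e) := by
    apply sin_nonneg_of_nonneg_of_le_pi (by positivity)
    have : x0 * e ≤ x * e := mul_le_mul_of_nonneg_right hx he.le
    linarith
  have a3 : 2 / π * (x * e) ≤ sin (x * e) := jordan (by positivity) h2
  have a4 : (x0 * a) / 4 ≤ sin (x0 * a) := sin_ge_quarter (by positivity) h1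
  rcases le_total (x * a) π with h | h
  · exact ratio_anti he hea hx0 hx h (by linarith)
  rcases le_total (x * a) (2 * π) with h' | h'
  · have b1 : sin (x * a) ≤ 0 := by
      rw [← sin_sub_two_pi]
      exact sin_nonpos_of_nonpos_of_neg_pi_le (by linarith) (by linarith)
    have b2 : 0 ≤ sin (x * e) * sin (x0 * a) :=
      mul_nonneg (le_trans (by positivity) a3) (le_trans (by positivity) a4)
    nlinarith
  · have a1 : sin (x * a) ≤ 1 := sin_le_one _
    have a2 : sin (x0 * e) ≤ x0 * e := sin_le (by positivity)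
    have a5 : (2 / π * (x * e)) * ((x0 * a) / 4) ≤ sin (x * e) * sin (x0 * a) :=
      mul_le_mul a3 a4 (by positivity) (le_trans (by positivity) a3)
    have a6 : x0 * e ≤ (2 / π * (x * e)) * ((x0 * a) / 4) := by
      have : (2 / π * (x * e)) * ((x0 * a) / 4) = (x0 * e) * ((x * a) / (2 * π)) := by
        field_simp
        ring
      rw [this]
      have h3 : 1 ≤ (x * a) / (2 * π) := by
        rw [le_div_iff₀ (by positivity)]
        linarith
      have : 0 < x0 * e := by positivity
      nlinarith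
    calc sin (x * a) * sin (x0 * e) ≤ 1 * sin (x0 * e) := mul_le_mul_of_nonneg_right a1 a2'
      _ ≤ _ := by linarith

lemma cos_sub_cos_succ (t e : ℝ) :
    cos (t * e) - cos ((t + 1) * e) = 2 * sin ((t + 1 / 2) * e) * sin (e / 2) := by
  rw [cos_sub_cos]
  have h1 : (t * e + (t + 1) * e) / 2 = (t + 1 / 2) * e := by ring
  have h2 : (t * e - (t + 1) * e) / 2 = -(e / 2) := by ring
  rw [h1, h2, sin_neg]; ring

/-- generic versions of the functions -/
noncomputable def vG (a e s : ℝ) : ℝ :=
  (cos (s * a) * cos ((s + 1) * e) - cos ((s + 1) * a) * cos (s * e)) /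
    (cos (s * a) - cos ((s + 1) * a))

noncomputable def rG (a e s : ℝ) : ℝ :=
  (cos (s * e) - cos ((s + 1) * e)) / (cos (s * a) - cos ((s + 1) * a))

lemma vG_eq (a e s : ℝ) (h : cos (s * a) - cos ((s + 1) * a) ≠ 0) :
    vG a e s = cos (s * e) - rG a e s * cos (s * a) := by
  unfold vG rG
  generalize cos (s * a) = A at *
  generalize cos ((s + 1) * a) = B at *
  generalize cos (s * e) = C at *
  generalize cos ((s + 1) * e) = E at *
  field_simp; ring

lemma vG_eq' (a e s : ℝ) (h : cos (s * a) - cos ((s + 1) * a) ≠ 0) :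
    vG a e s = cos ((s + 1) * e) - rG a e s * cos ((s + 1) * a) := by
  unfold vG rG
  generalize cos (s * a) = A at *
  generalize cos ((s + 1) * a) = B at *
  generalize cos (s * e) = C at *
  generalize cos ((s + 1) * e) = E at *
  field_simp; ring

/-- Feasibility of the symmetric position. -/
lemma feas {a e : ℝ} (j : ℕ) (he : 0 < e) (hea : e ≤ a) (hea' : e ≤ π - a)
    (hcase : ((j : ℝ) / 2 + 1 / 2) * a ≤ 3 * π / 4 ∨ (j = 1 ∧ π / 2 ≤ a))
    (hse : ((j : ℝ) / 2 + 1 / 2) * e ≤ π / 2)
    (i : ℤ) (hi : |(j : ℝ) / 2 + i| * e ≤ π / 2) :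
    cos (((j : ℝ) / 2 + i) * e) - rG a e (j / 2) * cos (((j : ℝ) / 2 + i) * a) ≤
      vG a e (j / 2) := by
  have hpi := pi_pos
  have ha : 0 < a := lt_of_lt_of_le he hea
  have hapi : a < π := by linarith
  set s : ℝ := (j : ℝ) / 2 with hs
  have hs0 : 0 ≤ s := by positivity
  have hx0a : (s + 1 / 2) * a < π := by
    rcases hcase with h | ⟨h, _⟩
    · linarith
    · have : s = 1 / 2 := by rw [hs, h]; norm_num
      rw [this]; linarith
  have hsa : 0 < sin ((s + 1 / 2) * a) := sin_pos_of_pos_of_lt_pi (by positivity) hx0a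
  have hsa2 : 0 < sin (a / 2) := sin_pos_of_pos_of_lt_pi (by positivity) (by linarith)
  have hse2 : 0 < sin (e / 2) := sin_pos_of_pos_of_lt_pi (by positivity) (by linarith)
  have hden : cos (s * a) - cos ((s + 1) * a) ≠ 0 := by
    rw [cos_sub_cos_succ]; positivity
  let h : ℝ → ℝ := fun t => cos (t * e) - rG a e s * cos (t * a)
  have hdiff : ∀ t, (h t - h (t + 1)) * sin ((s + 1 / 2) * a) = 2 * sin (e / 2) *
      (sin ((t + 1 / 2) * e) * sin ((s + 1 / 2) * a) -
        sin ((t + 1 / 2) * a) * sin ((s + 1 / 2) * e)) := by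
    intro t
    have e1 : h t - h (t + 1) = (cos (t * e) - cos ((t + 1) * e)) -
        rG a e s * (cos (t * a) - cos ((t + 1) * a)) := by simp only [h]; ring
    rw [e1]
    unfold rG
    rw [cos_sub_cos_succ, cos_sub_cos_succ, cos_sub_cos_succ, cos_sub_cos_succ]
    generalize sin ((s + 1 / 2) * a) = A at *
    generalize sin ((t + 1 / 2) * a) = B at *
    generalize sin ((s + 1 / 2) * e) = C at *
    generalize sin ((t + 1 / 2) * e) = E at *
    field_simp
  have hup : ∀ k : ℕ, (s + k) * e ≤ π / 2 → h (s + k) ≤ h s := by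
    intro k
    induction k with
    | zero => intro _; simp
    | succ k ih =>
      intro hk
      push_cast at hk ⊢
      have hk0 : (0 : ℝ) ≤ k := Nat.cast_nonneg k
      have h1 : (s + k) * e ≤ π / 2 := by nlinarith
      have h2 := ih h1
      have h3 : sin ((s + k + 1 / 2) * a) * sin ((s + 1 / 2) * e) ≤
          sin ((s + k + 1 / 2) * e) * sin ((s + 1 / 2) * a) := by
        rcases hcase with hc | ⟨hc, hc'⟩
        · exact lemU' he hea (by positivity) (by linarith) hc (by nlinarith)
        · have hs1 : s = 1 / 2 := by rw [hs, hc]; norm_num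
          have hU := lemU (e := e) (a := π - a) (x0 := 1) (x := k + 1) he hea' one_pos
            (by linarith) (by linarith) (by rw [hs1] at hk; nlinarith)
          have e1 : s + k + 1 / 2 = k + 1 := by rw [hs1]; ring
          have e2 : s + 1 / 2 = 1 := by rw [hs1]; ring
          rw [e1, e2]
          have e3 : sin (1 * (π - a)) = sin (1 * a) := by simp
          have e4 : |sin ((k + 1) * (π - a))| = |sin ((k + 1) * a)| := by
            have : ((k : ℝ) + 1) * (π - a) = ((k + 1 : ℕ) : ℝ) * π - (k + 1) * a := by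
              push_cast; ring
            rw [this, sin_nat_mul_pi_sub, abs_neg, abs_mul]
            simp
          rw [e3, e4] at hU
          have h5 : 0 ≤ sin (1 * e) := sin_nonneg_of_nonneg_of_le_pi (by positivity) (by linarith)
          have h6 : sin ((k + 1) * a) ≤ |sin ((k + 1) * a)| := le_abs_self _
          nlinarith
      have h4 := hdiff (s + k)
      have h5 : 0 ≤ (h (s + k) - h (s + k + 1)) * sin ((s + 1 / 2) * a) := by
        rw [h4]; apply mul_nonneg (by positivity); linarith
      have h6 : 0 ≤ h (s + k) - h (s + k + 1) := nonneg_of_mul_nonneg_left h5 hsa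
      rw [← add_assoc]; linarith
  have hdown : ∀ k : ℕ, 0 ≤ s - k → h (s - k) ≤ h s := by
    intro k
    induction k with
    | zero => intro _; simp
    | succ k ih =>
      intro hk
      push_cast at hk ⊢
      have hk0 : (0 : ℝ) ≤ k := Nat.cast_nonneg k
      have h2 := ih (by linarith)
      have h3 : sin ((s + 1 / 2) * a) * sin ((s - (k + 1) + 1 / 2) * e) ≤
          sin ((s + 1 / 2) * e) * sin ((s - (k + 1) + 1 / 2) * a) :=
        ratio_anti he hea (by linarith) (by linarith) hx0a.le (by linarith)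
      have h4 := hdiff (s - (k + 1))
      have h5 : (h (s - (k + 1)) - h (s - (k + 1) + 1)) * sin ((s + 1 / 2) * a) ≤ 0 := by
        rw [h4]; apply mul_nonpos_of_nonneg_of_nonpos (by positivity); linarith
      have h6 : h (s - (k + 1)) - h (s - (k + 1) + 1) ≤ 0 := by
        by_contra hcon
        push Not at hcon
        have := mul_pos hcon hsa
        linarith
      have e1 : s - (k + 1) + 1 = s - k := by ring
      rw [e1] at h6; linarith
  have hnonneg : ∀ i : ℤ, 0 ≤ s + i → (s + i) * e ≤ π / 2 → h (s + i) ≤ h s := by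
    intro i h0 h1
    rcases le_total 0 i with hi0 | hi0
    · obtain ⟨k, rfl⟩ := Int.eq_ofNat_of_zero_le hi0
      simpa using hup k (by simpa using h1)
    · obtain ⟨k, hk⟩ := Int.eq_ofNat_of_zero_le (neg_nonneg.mpr hi0)
      have : (i : ℝ) = -(k : ℝ) := by
        have : i = -(k : ℤ) := by omega
        rw [this]; push_cast; ring
      rw [this] at h0 ⊢
      simpa [sub_eq_add_neg] using hdown k (by linarith)
  rw [vG_eq a e s hden]
  change h (s + i) ≤ h s
  rcases le_total 0 (s + i) with h0 | h0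
  · rw [abs_of_nonneg h0] at hi
    exact hnonneg i h0 hi
  · rw [abs_of_nonpos h0] at hi
    have e1 : -(s + i) = s + ((-(j : ℤ) - i : ℤ) : ℝ) := by
      push_cast; rw [hs]; ring
    have e2 : h (s + i) = h (-(s + i)) := by
      simp only [h, neg_mul, cos_neg]
    rw [e2, e1]
    apply hnonneg
    · rw [← e1]; linarith
    · rw [← e1]; exact hi

end Pool.Agent.Lib.MP_1e894a_co
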