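import Mathlib
import Pool.Agent.Lib.MP_1e894a_co.Trig

namespace Pool.Agent.Lib.MP_1e894a_co

open Real

def Feas (a e r θ x y : ℝ) : Prop :=
  ∀ t : ℤ, x * cos (t * a) + y * sin (t * a) + r * cos (t * e - θ) ≤ 1

noncomputable def gF (a e : ℝ) (D : ℕ) (φ : ℝ) : ℝ :=
  sin a * cos φ - sin ((D + 1) * a) * cos (D * e - φ) + sin (D * a) * cos ((D + 1) * e - φ)

noncomputable def sS (a : ℝ) (D : ℕ) : ℝ := sin a - sin ((D + 1) * a) + sin (D * a)

structure Par (a e : ℝ) (D : ℕ) : Prop where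
  he : 0 < e
  ha : 0 < a
  hapi : a < π
  hD1 : 1 ≤ D
  hDa : D * a ≤ π
  hDa' : π < (D + 1) * a
  hDe : ((D : ℝ) / 2 + 1) * e < π / 2

lemma three_cos (u v w : ℝ) :
    sin (v - w) * cos u + sin (w - u) * cos v + sin (u - v) * cos w = 0 := by
  simp only [sin_sub]; ring

lemma three_sin (u v w : ℝ) :
    sin (v - w) * sin u + sin (w - u) * sin v + sin (u - v) * sin w = 0 := by
  simp only [sin_sub]; ring

namespace Par

variable {a e : ℝ} {D : ℕ} (P : Par a e D)
include P

lemma w1 : 0 < sin a := sin_pos_of_pos_of_lt_pi P.ha P.hapi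

lemma w2 : sin ((D + 1) * a) ≤ 0 := by
  rw [← sin_sub_two_pi]
  have := P.hDa; have := P.hDa'; have := P.hapi
  exact sin_nonpos_of_nonpos_of_neg_pi_le (by linarith) (by linarith)

lemma w3 : 0 ≤ sin (D * a) :=
  sin_nonneg_of_nonneg_of_le_pi (by have := P.ha; positivity) P.hDa

lemma sS_pos : 0 < sS a D := by
  have := P.w1; have := P.w2; have := P.w3
  unfold sS; linarith

lemma boundA {r θ x y : ℝ} (F : Feas a e r θ x y) (t : ℤ) :
    r * gF a e D (θ - t * e) ≤ sS a D := by
  have h1 := F t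
  have h2 := F (t + D)
  have h3 := F (t + D + 1)
  push_cast at h2 h3
  have w1 := P.w1; have w2 := P.w2; have w3 := P.w3
  have c := three_cos (t * a) ((t + D) * a) ((t + D + 1) * a)
  have s := three_sin (t * a) ((t + D) * a) ((t + D + 1) * a)
  have e1 : (t + D) * a - (t + D + 1) * a = -a := by ring
  have e2 : (t + D + 1) * a - t * a = (D + 1) * a := by ring
  have e3 : t * a - (t + D) * a = -(D * a) := by ring
  rw [e1, e2, e3, sin_neg, sin_neg] at c s
  have f1 : cos (θ - t * e) = cos (t * e - θ) := by rw [← cos_neg]; congr 1; ring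
  have f2 : D * e - (θ - t * e) = (t + D) * e - θ := by ring
  have f3 : (D + 1) * e - (θ - t * e) = (t + D + 1) * e - θ := by ring
  unfold gF sS
  rw [f1, f2, f3]
  have m1 := mul_le_mul_of_nonneg_left h1 w1.le
  have m2 := mul_le_mul_of_nonneg_left h2 (neg_nonneg.mpr w2)
  have m3 := mul_le_mul_of_nonneg_left h3 w3
  have k1 : x * (-sin a * cos (t * a) + sin ((D + 1) * a) * cos ((t + D) * a) +
      -sin (D * a) * cos ((t + D + 1) * a)) = 0 := by rw [c]; ring
  have k2 : y * (-sin a * sin (t * a) + sin ((D + 1) * a) * sin ((t + D) * a) +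
      -sin (D * a) * sin ((t + D + 1) * a)) = 0 := by rw [s]; ring
  linarith

lemma boundB {r θ x y : ℝ} (F : Feas a e r θ x y) (t : ℤ) :
    r * gF a e D ((t + D + 1) * e - θ) ≤ sS a D := by
  have h1 := F (t + D + 1)
  have h2 := F (t + 1)
  have h3 := F t
  push_cast at h1 h2
  have w1 := P.w1; have w2 := P.w2; have w3 := P.w3
  have c := three_cos ((t + D + 1) * a) ((t + 1) * a) (t * a)
  have s := three_sin ((t + D + 1) * a) ((t + 1) * a) (t * a)
  have e1 : (t + 1) * a - t * a = a := by ring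
  have e2 : t * a - (t + D + 1) * a = -((D + 1) * a) := by ring
  have e3 : (t + D + 1) * a - (t + 1) * a = D * a := by ring
  rw [e1, e2, e3, sin_neg] at c s
  have f2 : cos (D * e - ((t + D + 1) * e - θ)) = cos ((t + 1) * e - θ) := by
    rw [← cos_neg]; congr 1; ring
  have f3 : cos ((D + 1) * e - ((t + D + 1) * e - θ)) = cos (t * e - θ) := by
    rw [← cos_neg]; congr 1; ring
  unfold gF sS
  rw [f2, f3]
  have m1 := mul_le_mul_of_nonneg_left h1 w1.le
  have m2 := mul_le_mul_of_nonneg_left h2 (neg_nonneg.mpr w2)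
  have m3 := mul_le_mul_of_nonneg_left h3 w3
  have k1 : x * (sin a * cos ((t + D + 1) * a) + -sin ((D + 1) * a) * cos ((t + 1) * a) +
      sin (D * a) * cos (t * a)) = 0 := by rw [c]; ring
  have k2 : y * (sin a * sin ((t + D + 1) * a) + -sin ((D + 1) * a) * sin ((t + 1) * a) +
      sin (D * a) * sin (t * a)) = 0 := by rw [s]; ring
  linarith

lemma c0_nonneg {s : ℝ} (hs : s = (D : ℝ) / 2 ∨ s = ((D : ℝ) - 1) / 2) : 0 ≤ cos (s * a) := by
  have h1 : (1 : ℝ) ≤ D := by exact_mod_cast P.hD1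
  have := P.hDa; have := P.ha; have := pi_pos
  apply cos_nonneg_of_neg_pi_div_two_le_of_le
  · rcases hs with h | h <;> rw [h] <;> nlinarith
  · rcases hs with h | h <;> rw [h] <;> nlinarith

lemma c1_neg {s : ℝ} (hs : s = (D : ℝ) / 2 ∨ s = ((D : ℝ) - 1) / 2) : cos ((s + 1) * a) < 0 := by
  have := P.hDa; have := P.ha; have := pi_pos; have := P.hDa'; have := P.hapi
  apply cos_neg_of_pi_div_two_lt_of_lt
  · rcases hs with h | h <;> rw [h] <;> nlinarith
  · rcases hs with h | h <;> rw [h] <;> nlinarith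

lemma den_pos {s : ℝ} (hs : s = (D : ℝ) / 2 ∨ s = ((D : ℝ) - 1) / 2) :
    0 < cos (s * a) - cos ((s + 1) * a) := by
  have := P.c0_nonneg hs; have := P.c1_neg hs; linarith

lemma vG_pos {s : ℝ} (hs : s = (D : ℝ) / 2 ∨ s = ((D : ℝ) - 1) / 2) : 0 < vG a e s := by
  have h0 := P.c0_nonneg hs; have h1 := P.c1_neg hs
  have hD : (1 : ℝ) ≤ D := by exact_mod_cast P.hD1
  have := P.hDe; have := P.he; have := pi_pos
  have p1 : 0 < cos (s * e) := by
    apply cos_pos_of_mem_Ioo
    constructor <;> rcases hs with h | h <;> rw [h] <;> nlinarith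
  have p2 : 0 < cos ((s + 1) * e) := by
    apply cos_pos_of_mem_Ioo
    constructor <;> rcases hs with h | h <;> rw [h] <;> nlinarith
  unfold vG
  apply div_pos _ (P.den_pos hs)
  nlinarith [mul_nonneg h0 p2.le, mul_pos (neg_pos.mpr h1) p1]

lemma g1 : gF a e D (D * e / 2) = sS a D * vG a e (D / 2) := by
  have hd := (P.den_pos (Or.inl rfl)).ne'
  unfold gF sS vG
  set s : ℝ := (D : ℝ) / 2 with hs
  have hD : (D : ℝ) = 2 * s := by rw [hs]; ring
  have e1 : D * e / 2 = s * e := by rw [hD]; ring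
  have e2 : D * e - s * e = s * e := by rw [hD]; ring
  have e3 : (D + 1) * e - s * e = (s + 1) * e := by rw [hD]; ring
  have e4 : sin a = sin ((s + 1) * a) * cos (s * a) - cos ((s + 1) * a) * sin (s * a) := by
    rw [← sin_sub]; congr 1; ring
  have e5 : sin ((D + 1) * a) =
      sin ((s + 1) * a) * cos (s * a) + cos ((s + 1) * a) * sin (s * a) := by
    rw [← sin_add]; congr 1; rw [hD]; ring
  have e6 : sin (D * a) = 2 * sin (s * a) * cos (s * a) := by
    rw [← sin_two_mul]; congr 1; rw [hD]; ring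
  rw [e1, e2, e3, e4, e5, e6]
  generalize cos (s * a) = A at *
  generalize cos ((s + 1) * a) = B at *
  field_simp
  ring

lemma g2 : gF a e D ((D + 1) * e / 2) = sS a D * vG a e ((D - 1) / 2) := by
  have hd := (P.den_pos (Or.inr rfl)).ne'
  unfold gF sS vG
  set s : ℝ := ((D : ℝ) - 1) / 2 with hs
  have hD : (D : ℝ) = 2 * s + 1 := by rw [hs]; ring
  have e1 : (D + 1) * e / 2 = (s + 1) * e := by rw [hD]; ring
  have e2 : D * e - (s + 1) * e = s * e := by rw [hD]; ring
  have e3 : (D + 1) * e - (s + 1) * e = (s + 1) * e := by rw [hD]; ring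
  have e4 : sin a = sin ((s + 1) * a) * cos (s * a) - cos ((s + 1) * a) * sin (s * a) := by
    rw [← sin_sub]; congr 1; ring
  have e5 : sin (D * a) =
      sin ((s + 1) * a) * cos (s * a) + cos ((s + 1) * a) * sin (s * a) := by
    rw [← sin_add]; congr 1; rw [hD]; ring
  have e6 : sin ((D + 1) * a) = 2 * sin ((s + 1) * a) * cos ((s + 1) * a) := by
    rw [← sin_two_mul]; congr 1; rw [hD]; ring
  rw [e1, e2, e3, e4, e5, e6]
  generalize cos (s * a) = A at *
  generalize cos ((s + 1) * a) = B at *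
  field_simp
  ring

omit P in
lemma g_interp (u v φ : ℝ) :
    gF a e D φ * sin (v - u) = gF a e D u * sin (v - φ) + gF a e D v * sin (φ - u) := by
  unfold gF
  simp only [sin_sub, cos_sub]
  ring

/-- On the basic interval `g` is at least `S * min`, strictly in the interior. -/
lemma g_lower {φ : ℝ} (h1 : D * e / 2 ≤ φ) (h2 : φ ≤ (D + 1) * e / 2) :
    sS a D * min (vG a e (D / 2)) (vG a e ((D - 1) / 2)) ≤ gF a e D φ ∧
    (D * e / 2 < φ → φ < (D + 1) * e / 2 →
      sS a D * min (vG a e (D / 2)) (vG a e ((D - 1) / 2)) < gF a e D φ) := by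
  have hi := g_interp (a := a) (e := e) (D := D) (D * e / 2) ((D + 1) * e / 2) φ
  rw [P.g1, P.g2] at hi
  set μ := min (vG a e (D / 2)) (vG a e ((D - 1) / 2)) with hμ
  have hμ0 : 0 < μ := lt_min (P.vG_pos (Or.inl rfl)) (P.vG_pos (Or.inr rfl))
  have hS := P.sS_pos
  have he := P.he
  have hDe := P.hDe
  have hD : (1 : ℝ) ≤ D := by exact_mod_cast P.hD1
  have hpi := pi_pos
  have he2 : e < π / 2 := by nlinarith
  set p := (D + 1) * e / 2 - φ with hp
  set q := φ - D * e / 2 with hq
  have hpq : (D + 1) * e / 2 - D * e / 2 = p + q := by rw [hp, hq]; ring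
  have hpq' : p + q = e / 2 := by rw [hp, hq]; ring
  rw [hpq] at hi
  have p0 : 0 ≤ p := by rw [hp]; linarith
  have q0 : 0 ≤ q := by rw [hq]; linarith
  have sp : 0 ≤ sin p := sin_nonneg_of_nonneg_of_le_pi p0 (by linarith)
  have sq : 0 ≤ sin q := sin_nonneg_of_nonneg_of_le_pi q0 (by linarith)
  have spq : 0 < sin (p + q) := sin_pos_of_pos_of_lt_pi (by linarith) (by linarith)
  have l1 : μ ≤ vG a e (D / 2) := min_le_left _ _
  have l2 : μ ≤ vG a e ((D - 1) / 2) := min_le_right _ _
  have key : sS a D * μ * (sin p + sin q) ≤ gF a e D φ * sin (p + q) := by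
    rw [hi]
    have := mul_le_mul_of_nonneg_right (mul_le_mul_of_nonneg_left l1 hS.le) sp
    have := mul_le_mul_of_nonneg_right (mul_le_mul_of_nonneg_left l2 hS.le) sq
    linarith
  have hSμ : 0 < sS a D * μ := mul_pos hS hμ0
  constructor
  · have sub : sin (p + q) ≤ sin p + sin q := by
      rw [sin_add]
      have := cos_le_one p; have := cos_le_one q
      nlinarith
    have := mul_le_mul_of_nonneg_left sub hSμ.le
    exact le_of_mul_le_mul_right (by linarith) spq
  · intro k1 k2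
    have p1 : 0 < p := by rw [hp]; linarith
    have q1 : 0 < q := by rw [hq]; linarith
    have sp' : 0 < sin p := sin_pos_of_pos_of_lt_pi p1 (by linarith)
    have cq : cos q < 1 := by
      rw [← cos_zero]
      exact cos_lt_cos_of_nonneg_of_le_pi le_rfl (by linarith) q1
    have sub : sin (p + q) < sin p + sin q := by
      rw [sin_add]
      have := cos_le_one p
      nlinarith
    have := mul_lt_mul_of_pos_left sub hSμ
    exact lt_of_mul_lt_mul_right (by linarith) spq.le

/-- locating `θ`. -/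
lemma locate (θ : ℝ) : ∃ t : ℤ, (D * e / 2 ≤ θ - t * e ∧ θ - t * e ≤ (D + 1) * e / 2) ∨
    (D * e / 2 ≤ (t + D + 1) * e - θ ∧ (t + D + 1) * e - θ ≤ (D + 1) * e / 2) := by
  have he := P.he
  set t : ℤ := ⌊θ / e - D / 2⌋ with ht
  have h1 : (t : ℝ) ≤ θ / e - D / 2 := Int.floor_le _
  have h2 : θ / e - D / 2 < t + 1 := Int.lt_floor_add_one _
  have h3 : θ = θ / e * e := by field_simp
  refine ⟨t, ?_⟩
  rcases le_total (θ - t * e) ((D + 1) * e / 2) with h | h
  · left; constructor
    · nlinarith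
    · exact h
  · right; constructor
    · nlinarith
    · linarith

lemma upper {r θ x y : ℝ} (hr : 0 < r) (F : Feas a e r θ x y) :
    r * min (vG a e (D / 2)) (vG a e ((D - 1) / 2)) ≤ 1 := by
  have hS := P.sS_pos
  obtain ⟨t, h | h⟩ := P.locate θ
  · have h1 := (P.g_lower h.1 h.2).1
    have h2 := P.boundA F t
    have h3 := mul_le_mul_of_nonneg_left h1 hr.le
    exact le_of_mul_le_mul_left (by linarith) hS
  · have h1 := (P.g_lower h.1 h.2).1
    have h2 := P.boundB F t
    have h3 := mul_le_mul_of_nonneg_left h1 hr.le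
    exact le_of_mul_le_mul_left (by linarith) hS

lemma eq_theta {r θ x y : ℝ} (hr : 0 < r) (F : Feas a e r θ x y)
    (heq : r * min (vG a e (D / 2)) (vG a e ((D - 1) / 2)) = 1) :
    ∃ s : ℝ, (s = (D : ℝ) / 2 ∨ s = ((D : ℝ) - 1) / 2) ∧ r * vG a e s = 1 ∧
      ∃ l : ℤ, θ = (s + l) * e := by
  have hS := P.sS_pos
  have l1 : min (vG a e (D / 2)) (vG a e ((D - 1) / 2)) ≤ vG a e (D / 2) := min_le_left _ _
  have l2 : min (vG a e (D / 2)) (vG a e ((D - 1) / 2)) ≤ vG a e ((D - 1) / 2) := min_le_right _ _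
  have l1' := mul_le_mul_of_nonneg_left l1 hr.le
  have l2' := mul_le_mul_of_nonneg_left l2 hr.le
  have main : ∀ φ, D * e / 2 ≤ φ → φ ≤ (D + 1) * e / 2 → r * gF a e D φ ≤ sS a D →
      (φ = D * e / 2 ∧ r * vG a e (D / 2) = 1) ∨
      (φ = (D + 1) * e / 2 ∧ r * vG a e ((D - 1) / 2) = 1) := by
    intro φ h1 h2 h3
    rcases h1.eq_or_lt with k1 | k1
    · left
      refine ⟨k1.symm, le_antisymm ?_ (by linarith)⟩
      rw [← k1, P.g1] at h3
      exact le_of_mul_le_mul_left (by linarith) hS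
    rcases h2.eq_or_lt with k2 | k2
    · right
      refine ⟨k2, le_antisymm ?_ (by linarith)⟩
      rw [k2, P.g2] at h3
      exact le_of_mul_le_mul_left (by linarith) hS
    exfalso
    have h4 := (P.g_lower h1 h2).2 k1 k2
    have h5 := mul_lt_mul_of_pos_left h4 hr
    have h6 : r * (sS a D * min (vG a e (D / 2)) (vG a e ((D - 1) / 2))) = sS a D := by
      rw [mul_left_comm, heq, mul_one]
    linarith
  obtain ⟨t, h | h⟩ := P.locate θ
  · rcases main _ h.1 h.2 (P.boundA F t) with ⟨k1, k2⟩ | ⟨k1, k2⟩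
    · exact ⟨_, Or.inl rfl, k2, t, by linarith⟩
    · exact ⟨_, Or.inr rfl, k2, t + 1, by push_cast; linarith⟩
  · rcases main _ h.1 h.2 (P.boundB F t) with ⟨k1, k2⟩ | ⟨k1, k2⟩
    · exact ⟨_, Or.inl rfl, k2, t + 1, by push_cast; linarith⟩
    · exact ⟨_, Or.inr rfl, k2, t + 1, by push_cast; linarith⟩

lemma c0_pos {s : ℝ} (hs : s = (D : ℝ) / 2 ∨ s = ((D : ℝ) - 1) / 2)
    (hmin : vG a e s ≤ vG a e ((D - 1) / 2)) : 0 < cos (s * a) := by
  have h1 : (1 : ℝ) ≤ D := by exact_mod_cast P.hD1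
  have hDa := P.hDa; have ha := P.ha; have hpi := pi_pos
  rcases hs with h | h
  · rcases hDa.eq_or_lt with k | k
    · exfalso
      have g1 := P.g1
      have g2 := P.g2
      have hS := P.sS_pos
      have w1 := P.w1
      have z1 : sin (D * a) = 0 := by rw [k, sin_pi]
      have z2 : sin ((D + 1) * a) = -sin a := by
        rw [add_mul, k, one_mul, add_comm, sin_add_pi]
      have he := P.he
      have hDe := P.hDe
      have he2 : e < π / 2 := by nlinarith
      unfold gF at g1 g2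
      rw [z1, z2] at g1 g2
      have e1 : D * e - D * e / 2 = D * e / 2 := by ring
      have e2 : (D + 1) * e / 2 = D * e / 2 + e / 2 := by ring
      have e3 : D * e - (D * e / 2 + e / 2) = D * e / 2 - e / 2 := by ring
      rw [e1] at g1
      rw [e2, e3, cos_add, cos_sub] at g2
      have cq : cos (e / 2) < 1 := by
        rw [← cos_zero]
        exact cos_lt_cos_of_nonneg_of_le_pi le_rfl (by linarith) (by linarith)
      have cp : 0 < cos (D * e / 2) := by
        apply cos_pos_of_mem_Ioo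
        constructor <;> nlinarith
      rw [h] at hmin
      have m1 := mul_le_mul_of_nonneg_left hmin hS.le
      have m2 : 0 < sin a * cos (D * e / 2) * (1 - cos (e / 2)) :=
        mul_pos (mul_pos w1 cp) (by linarith)
      nlinarith
    · apply cos_pos_of_mem_Ioo
      rw [h]; constructor <;> nlinarith
  · apply cos_pos_of_mem_Ioo
    rw [h]; constructor <;> nlinarith

lemma eq_centre {r θ x y s : ℝ} (F : Feas a e r θ x y)
    (hs : s = (D : ℝ) / 2 ∨ s = ((D : ℝ) - 1) / 2) (hv : r * vG a e s = 1)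
    (hc0 : 0 < cos (s * a)) (l : ℤ) (hθ : θ = (s + l) * e) :
    x = -(rG a e s * r) * cos ((s + l) * a) ∧ y = -(rG a e s * r) * sin ((s + l) * a) := by
  obtain ⟨j, hj⟩ : ∃ j : ℤ, (j : ℝ) = 2 * s := by
    rcases hs with h | h
    · exact ⟨D, by rw [h]; push_cast; ring⟩
    · exact ⟨D - 1, by rw [h]; push_cast; ring⟩
  have hc1 := P.c1_neg hs
  have hden := (P.den_pos hs).ne'
  set τ := s + l with hτ
  set X := x * cos (τ * a) + y * sin (τ * a) with hX
  set Y := -x * sin (τ * a) + y * cos (τ * a) with hY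
  have gen : ∀ (t : ℤ) (u : ℝ), (t : ℝ) = τ + u →
      X * cos (u * a) + Y * sin (u * a) + r * cos (u * e) ≤ 1 := by
    intro t u htu
    have h := F t
    have e1 : t * e - θ = u * e := by rw [htu, hθ]; ring
    have e2 : t * a = τ * a + u * a := by rw [htu]; ring
    rw [e1, e2, cos_add, sin_add] at h
    rw [hX, hY]; linarith
  have k1 := gen (l + j) s (by push_cast; rw [hj, hτ]; ring)
  have k2 := gen l (-s) (by rw [hτ]; ring)
  have k3 := gen (l + j + 1) (s + 1) (by push_cast; rw [hj, hτ]; ring)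
  have k4 := gen (l - 1) (-(s + 1)) (by push_cast; rw [hτ]; ring)
  simp only [neg_mul, cos_neg, sin_neg] at k2 k4
  have hv1 := vG_eq a e s hden
  have hv2 := vG_eq' a e s hden
  have e4 : sin a = sin ((s + 1) * a) * cos (s * a) - cos ((s + 1) * a) * sin (s * a) := by
    rw [← sin_sub]; congr 1; ring
  have w1 := P.w1
  set c0 := cos (s * a)
  set c1 := cos ((s + 1) * a)
  set s0 := sin (s * a)
  set s1 := sin ((s + 1) * a)
  set ρ := rG a e s
  have n1 : r * cos (s * e) = 1 + ρ * r * c0 := by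
    have : cos (s * e) = vG a e s + ρ * c0 := by rw [hv1]; ring
    rw [this, mul_add, hv]; ring
  have n2 : r * cos ((s + 1) * e) = 1 + ρ * r * c1 := by
    have : cos ((s + 1) * e) = vG a e s + ρ * c1 := by rw [hv2]; ring
    rw [this, mul_add, hv]; ring
  rw [n1] at k1 k2
  rw [n2] at k3 k4
  have z1 : (X + ρ * r) * c0 ≤ 0 := by nlinarith
  have z2 : (X + ρ * r) * c1 ≤ 0 := by nlinarith
  have z3 : X + ρ * r ≤ 0 := by
    by_contra hcon
    push Not at hcon
    have := mul_pos hcon hc0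
    linarith
  have z4 : 0 ≤ X + ρ * r := by
    by_contra hcon
    push Not at hcon
    have := mul_pos_of_neg_of_neg hcon hc1
    linarith
  have hX' : X = -(ρ * r) := by linarith
  rw [hX'] at k1 k2 k3 k4
  have y1 : Y * s0 = 0 := by linarith
  have y2 : Y * s1 = 0 := by linarith
  have y3 : Y * sin a = 0 := by
    rw [e4]
    calc Y * (s1 * c0 - c1 * s0) = (Y * s1) * c0 - c1 * (Y * s0) := by ring
      _ = 0 := by rw [y1, y2]; ring
  have hY' : Y = 0 := by
    rcases mul_eq_zero.mp y3 with h | h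
    · exact h
    · exact absurd h w1.ne'
  have sc := sin_sq_add_cos_sq (τ * a)
  constructor
  · have : x = X * cos (τ * a) - Y * sin (τ * a) := by
      rw [hX, hY]; linear_combination (-x) * sc
    rw [this, hX', hY']; ring
  · have : y = X * sin (τ * a) + Y * cos (τ * a) := by
      rw [hX, hY]; linear_combination (-y) * sc
    rw [this, hX', hY']; ring

lemma eq_case {r θ x y : ℝ} (hr : 0 < r) (F : Feas a e r θ x y)
    (heq : r * min (vG a e (D / 2)) (vG a e ((D - 1) / 2)) = 1) :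
    ∃ s : ℝ, (s = (D : ℝ) / 2 ∨ s = ((D : ℝ) - 1) / 2) ∧ r * vG a e s = 1 ∧
      ∃ l : ℤ, θ = (s + l) * e ∧ x = -(rG a e s * r) * cos ((s + l) * a) ∧
        y = -(rG a e s * r) * sin ((s + l) * a) := by
  obtain ⟨s, hs, hv, l, hθ⟩ := P.eq_theta hr F heq
  refine ⟨s, hs, hv, l, hθ, ?_⟩
  apply P.eq_centre F hs hv _ l hθ
  apply P.c0_pos hs
  have l2 : min (vG a e (D / 2)) (vG a e ((D - 1) / 2)) ≤ vG a e ((D - 1) / 2) := min_le_right _ _
  have l2' := mul_le_mul_of_nonneg_left l2 hr.le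
  exact le_of_mul_le_mul_left (by linarith) hr

end Par

end Pool.Agent.Lib.MP_1e894a_co
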