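import Mathlib
import Pool.Agent.Lib.MP_1e894a_co.Upper
import Pool.Agent.Lib.MP_1e894a_co.Gon

namespace Pool.Agent.Lib.MP_1e894a_co

open Real

def FeasJK (m n : ℕ) (r θ x y : ℝ) : Prop :=
  ∀ j k : ℤ, x * cos (2 * π * j / n) + y * sin (2 * π * j / n) +
    r * cos (2 * π * j / n - 2 * π * k / m - θ) ≤ 1

/-! ### signed versions -/

lemma vG_neg (a e s : ℝ) : vG (-a) e s = vG a e s := by simp [vG]
lemma rG_neg (a e s : ℝ) : rG (-a) e s = rG a e s := by simp [rG]

lemma vG_abs (a e s : ℝ) : vG |a| e s = vG a e s := by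
  rcases abs_choice a with h | h <;> rw [h]
  exact vG_neg a e s

lemma rG_abs (a e s : ℝ) : rG |a| e s = rG a e s := by
  rcases abs_choice a with h | h <;> rw [h]
  exact rG_neg a e s

lemma Feas_neg {a e r θ x y : ℝ} (F : Feas a e r θ x y) : Feas (-a) e r θ x (-y) := by
  intro t
  simpa using F t

lemma upper_signed {a e : ℝ} {D : ℕ} (P : Par |a| e D) {r θ x y : ℝ} (hr : 0 < r)
    (F : Feas a e r θ x y) : r * min (vG a e (D / 2)) (vG a e ((D - 1) / 2)) ≤ 1 := by
  rcases abs_choice a with h | h <;> rw [h] at P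
  · exact P.upper hr F
  · have := P.upper hr (Feas_neg F)
    rwa [vG_neg, vG_neg] at this

lemma eq_signed {a e : ℝ} {D : ℕ} (P : Par |a| e D) {r θ x y : ℝ} (hr : 0 < r)
    (F : Feas a e r θ x y) (heq : r * min (vG a e (D / 2)) (vG a e ((D - 1) / 2)) = 1) :
    ∃ s : ℝ, (s = (D : ℝ) / 2 ∨ s = ((D : ℝ) - 1) / 2) ∧ r * vG a e s = 1 ∧
      ∃ l : ℤ, θ = (s + l) * e ∧ x = -(rG a e s * r) * cos ((s + l) * a) ∧
        y = -(rG a e s * r) * sin ((s + l) * a) := by
  rcases abs_choice a with h | h <;> rw [h] at P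
  · exact P.eq_case hr F heq
  · obtain ⟨s, hs, hv, l, h1, h2, h3⟩ := P.eq_case hr (Feas_neg F) (by rwa [vG_neg, vG_neg])
    rw [vG_neg] at hv
    rw [rG_neg] at h2 h3
    refine ⟨s, hs, hv, l, h1, by simpa using h2, ?_⟩
    simp only [mul_neg, sin_neg] at h3
    linarith

/-! ### the coprime case -/

section coprime

variable {m n : ℕ} (hm : 3 ≤ m) (hn : 3 ≤ n) (hc : Nat.Coprime m n)
include hm hn hc

omit hm in
lemma invMod_spec : ∃ g : ℤ, invMod m n * m = 1 + n * g := by
  have : NeZero n := ⟨by omega⟩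
  have h1 : ((invMod m n * m : ℤ) : ZMod n) = ((1 : ℤ) : ZMod n) := by
    unfold invMod
    push_cast
    rw [mul_comm]
    exact ZMod.coe_mul_inv_eq_one m hc
  rw [ZMod.intCast_eq_intCast_iff_dvd_sub] at h1
  obtain ⟨g, hg⟩ := h1
  exact ⟨-g, by linarith⟩

omit hm in
lemma invMod_bounds : 1 ≤ (invMod m n).natAbs ∧ 2 * (invMod m n).natAbs < n := by
  have : NeZero n := ⟨by omega⟩
  obtain ⟨g, hg⟩ := invMod_spec hn hc
  have h1 : (invMod m n).natAbs ≤ n / 2 := ZMod.natAbs_valMinAbs_le _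
  have hn' : (3 : ℤ) ≤ n := by exact_mod_cast hn
  constructor
  · by_contra h
    have h0 : invMod m n = 0 := by omega
    rw [h0] at hg
    have : (n : ℤ) ∣ 1 := ⟨-g, by linarith⟩
    have := Int.le_of_dvd one_pos this
    omega
  · by_contra h
    have h2 : 2 * (invMod m n).natAbs = n := by omega
    have h3 : (n : ℤ) ∣ 2 * invMod m n := by
      rcases Int.natAbs_eq (invMod m n) with k | k
      · exact ⟨1, by omega⟩
      · exact ⟨-1, by omega⟩
    obtain ⟨w, hw⟩ := h3
    have : (n : ℤ) ∣ 2 := ⟨w * m - 2 * g, by linear_combination (-2) * hg + m * hw⟩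
    have := Int.le_of_dvd two_pos this
    omega

omit hm hc in
lemma abs_alpha : |alpha m n| = 2 * π * ((invMod m n).natAbs : ℝ) / n := by
  have hn0 : (0 : ℝ) < n := by positivity
  unfold alpha
  rw [abs_div, abs_mul, abs_of_pos (by positivity : 0 < 2 * π), abs_of_pos hn0,
    Nat.cast_natAbs, Int.cast_abs]

lemma par : Par |alpha m n| (eps m n) (dInt m n) := by
  obtain ⟨b1, b2⟩ := invMod_bounds hn hc
  rw [abs_alpha hn]
  unfold eps dInt
  set q := (invMod m n).natAbs
  have hn0 : (0 : ℝ) < n := by positivity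
  have hm0 : (0 : ℝ) < m := by positivity
  have hpi := pi_pos
  have d1 : n / (2 * q) * (2 * q) ≤ n := Nat.div_mul_le_self _ _
  have d2 : n < (n / (2 * q) + 1) * (2 * q) := by
    have := Nat.lt_div_mul_add (a := n) (b := 2 * q) (by omega)
    linarith
  have d3 : 1 ≤ n / (2 * q) := (Nat.le_div_iff_mul_le (by omega)).mpr (by omega)
  set D := n / (2 * q)
  have q1 : (1 : ℝ) ≤ q := by exact_mod_cast b1
  have q2 : 2 * (q : ℝ) < n := by exact_mod_cast b2
  have r1 : (D : ℝ) * (2 * q) ≤ n := by exact_mod_cast d1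
  have r2 : (n : ℝ) < (D + 1) * (2 * q) := by exact_mod_cast d2
  have m3 : (3 : ℝ) ≤ m := by exact_mod_cast hm
  have n3 : (3 : ℝ) ≤ n := by exact_mod_cast hn
  have D0 : (0 : ℝ) ≤ D := by positivity
  refine ⟨by positivity, by positivity, ?_, d3, ?_, ?_, ?_⟩
  · rw [div_lt_iff₀ hn0]; nlinarith
  · rw [← mul_div_assoc, div_le_iff₀ hn0]; nlinarith
  · rw [← mul_div_assoc, lt_div_iff₀ hn0]; nlinarith
  · rw [← mul_div_assoc, div_lt_div_iff₀ (by positivity) (by norm_num)]
    have : 2 * (D : ℝ) ≤ n := by nlinarith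
    have : 2 * (D : ℝ) + 4 < m * n := by nlinarith
    nlinarith

lemma feasJK_iff (r θ x y : ℝ) :
    FeasJK m n r θ x y ↔ Feas (alpha m n) (eps m n) r θ x y := by
  obtain ⟨g, hg⟩ := invMod_spec hn hc
  have hn0 : (n : ℝ) ≠ 0 := by positivity
  have hm0 : (m : ℝ) ≠ 0 := by positivity
  have hg' : (invMod m n : ℝ) * m = 1 + n * g := by exact_mod_cast hg
  unfold alpha eps
  set p := invMod m n
  constructor
  · intro F t
    have h := F (t * p) (t * g)
    have e1 : 2 * π * ((t * p : ℤ) : ℝ) / n = t * (2 * π * p / n) := by push_cast; ring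
    have e2 : t * (2 * π * p / n) - 2 * π * ((t * g : ℤ) : ℝ) / m = t * (2 * π / (m * n)) := by
      push_cast; field_simp; linear_combination t * hg'
    rw [e1, e2] at h
    exact h
  · intro F j k
    have h := F (j * m - k * n)
    have e1 : ((j * m - k * n : ℤ) : ℝ) * (2 * π * p / n) =
        2 * π * j / n + ((j * g - p * k : ℤ) : ℝ) * (2 * π) := by
      push_cast; field_simp; linear_combination j * hg'
    have e2 : ((j * m - k * n : ℤ) : ℝ) * (2 * π / (m * n)) = 2 * π * j / n - 2 * π * k / m := by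
      push_cast; field_simp
    rw [e1, e2, cos_add_int_mul_two_pi, sin_add_int_mul_two_pi] at h
    exact h

lemma feas_all {s : ℝ} (hs : s = (dInt m n : ℝ) / 2 ∨ s = ((dInt m n : ℝ) - 1) / 2) (i : ℤ) :
    cos ((s + i) * eps m n) - rG (alpha m n) (eps m n) s * cos ((s + i) * alpha m n) ≤
      vG (alpha m n) (eps m n) s := by
  have P := par hm hn hc
  obtain ⟨b1, b2⟩ := invMod_bounds hn hc
  have hn0 : (0 : ℝ) < n := by positivity
  have hm0 : (0 : ℝ) < m := by positivity
  have m3 : (3 : ℝ) ≤ m := by exact_mod_cast hm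
  have n3 : (3 : ℝ) ≤ n := by exact_mod_cast hn
  have hpi := pi_pos
  have q1 : (1 : ℝ) ≤ (invMod m n).natAbs := by exact_mod_cast b1
  have q2 : 2 * ((invMod m n).natAbs : ℝ) + 1 ≤ n := by exact_mod_cast b2
  have hea : eps m n ≤ |alpha m n| := by
    rw [abs_alpha hn]; unfold eps
    rw [div_le_div_iff₀ (by positivity) hn0]
    have : 1 ≤ ((invMod m n).natAbs : ℝ) * m := by nlinarith
    have : 0 < π * n := by positivity
    nlinarith
  have hea' : eps m n ≤ π - |alpha m n| := by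
    rw [abs_alpha hn]; unfold eps
    have e1 : π - 2 * π * ((invMod m n).natAbs : ℝ) / n =
        π * (n - 2 * ((invMod m n).natAbs : ℝ)) / n := by field_simp
    rw [e1, div_le_div_iff₀ (by positivity) hn0]
    have : 2 ≤ (n - 2 * ((invMod m n).natAbs : ℝ)) * m := by nlinarith
    have : 0 < π * n := by positivity
    nlinarith
  have hD : (1 : ℝ) ≤ dInt m n := by exact_mod_cast P.hD1
  have he := P.he; have ha := P.ha; have hDa := P.hDa; have hDa' := P.hDa'; have hDe := P.hDe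
  obtain ⟨j, hj, hcase⟩ : ∃ j : ℕ, s = (j : ℝ) / 2 ∧
      (((j : ℝ) / 2 + 1 / 2) * |alpha m n| ≤ 3 * π / 4 ∨ (j = 1 ∧ π / 2 ≤ |alpha m n|)) := by
    rcases hs with h | h
    · refine ⟨dInt m n, h, ?_⟩
      rcases P.hD1.eq_or_lt with k | k
      · right
        refine ⟨k.symm, ?_⟩
        rw [← k] at hDa'; push_cast at hDa'; linarith
      · left
        have : (2 : ℝ) ≤ dInt m n := by exact_mod_cast k
        nlinarith
    · refine ⟨dInt m n - 1, by rw [h, Nat.cast_sub P.hD1]; simp, Or.inl ?_⟩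
      rw [Nat.cast_sub P.hD1]; push_cast; nlinarith
  have hse : ((j : ℝ) / 2 + 1 / 2) * eps m n ≤ π / 2 := by
    rw [← hj]; rcases hs with h | h <;> rw [h] <;> nlinarith
  set w : ℤ := ⌊(s + i) / n + 1 / 2⌋
  have w1 : (w : ℝ) ≤ (s + i) / n + 1 / 2 := Int.floor_le _
  have w2 : (s + i) / n + 1 / 2 < w + 1 := Int.lt_floor_add_one _
  have w3 : s + i = (s + i) / n * n := by field_simp
  have habs : |s + ((i - n * w : ℤ) : ℝ)| ≤ n / 2 := by
    push_cast
    rw [abs_le]; constructor <;> nlinarith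
  have hb : |s + ((i - n * w : ℤ) : ℝ)| * eps m n ≤ π / m := by
    have : (n : ℝ) / 2 * eps m n = π / m := by unfold eps; field_simp
    rw [← this]
    exact mul_le_mul_of_nonneg_right habs he.le
  have hb' : π / m ≤ π / 2 := div_le_div_of_nonneg_left hpi.le (by norm_num) (by linarith)
  have key := feas j he hea hea' hcase hse (i - n * w) (by rw [← hj]; linarith)
  rw [← hj, vG_abs, rG_abs] at key
  have c1 : cos ((s + ((i - n * w : ℤ) : ℝ)) * |alpha m n|) = cos ((s + i) * alpha m n) := by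
    have : cos ((s + ((i - n * w : ℤ) : ℝ)) * |alpha m n|) =
        cos ((s + ((i - n * w : ℤ) : ℝ)) * alpha m n) := by
      rcases abs_choice (alpha m n) with h | h <;> rw [h]
      simp
    rw [this, ← cos_add_int_mul_two_pi _ (w * invMod m n)]
    congr 1
    unfold alpha; push_cast; field_simp; ring
  have c2 : cos ((s + i) * eps m n) ≤ cos ((s + ((i - n * w : ℤ) : ℝ)) * eps m n) := by
    have := cos_nearest (k := m) (by omega) (y := (s + ((i - n * w : ℤ) : ℝ)) * eps m n)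
      (by rw [abs_mul, abs_of_pos he]; exact hb) w
    convert this using 2
    unfold eps; push_cast; field_simp; ring
  rw [c1] at key
  linarith

lemma feas_pos {s r : ℝ} (hs : s = (dInt m n : ℝ) / 2 ∨ s = ((dInt m n : ℝ) - 1) / 2)
    (hr : 0 < r) (hv : r * vG (alpha m n) (eps m n) s = 1) :
    FeasJK m n r (s * eps m n) (-(rG (alpha m n) (eps m n) s * r) * cos (s * alpha m n))
      (-(rG (alpha m n) (eps m n) s * r) * sin (s * alpha m n)) := by
  rw [feasJK_iff hm hn hc]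
  intro t
  obtain ⟨j, hj⟩ : ∃ j : ℤ, (j : ℝ) = 2 * s := by
    rcases hs with h | h
    · exact ⟨dInt m n, by rw [h]; push_cast; ring⟩
    · exact ⟨dInt m n - 1, by rw [h]; push_cast; ring⟩
  have h := feas_all hm hn hc hs (t - j)
  have e1 : s + ((t - j : ℤ) : ℝ) = t - s := by push_cast; rw [hj]; ring
  rw [e1, sub_mul, sub_mul, cos_sub (t * alpha m n)] at h
  have := mul_le_mul_of_nonneg_left h hr.le
  linarith

end coprime

/-! ### the case of a common divisor -/

lemma sum_roots {d : ℕ} (hd : 2 ≤ d) (x y φ : ℝ) :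
    ∑ i ∈ Finset.range d, (x * cos (φ + 2 * π * i / d) + y * sin (φ + 2 * π * i / d)) = 0 := by
  have hprim := Complex.isPrimitiveRoot_exp d (by omega)
  have hsum := hprim.geom_sum_eq_zero (by omega)
  have h1 : ∑ i ∈ Finset.range d, E (φ + 2 * π * i / d) = 0 := by
    have : ∀ i ∈ Finset.range d, E (φ + 2 * π * i / d) =
        E φ * Complex.exp (2 * π * Complex.I / d) ^ i := by
      intro i _
      rw [E_add, ← Complex.exp_nat_mul]
      congr 1
      unfold E; congr 1; push_cast; ring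
    rw [Finset.sum_congr rfl this, ← Finset.mul_sum, hsum, mul_zero]
  have h2 := congrArg Complex.re h1
  have h3 := congrArg Complex.im h1
  simp only [Complex.re_sum, Complex.im_sum, E_re, E_im, Complex.zero_re, Complex.zero_im] at h2 h3
  rw [Finset.sum_add_distrib, ← Finset.mul_sum, ← Finset.mul_sum, h2, h3]; simp

structure Dec (m n d m' n' : ℕ) (j1 k1 : ℤ) : Prop where
  hd : 2 ≤ d
  hm : m = d * m'
  hn : n = d * n'
  hL : Nat.lcm m n = d * m' * n'
  hb : j1 * m' - k1 * n' = 1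

lemma exists_dec {m n : ℕ} (hm : 3 ≤ m) (hc : ¬ Nat.Coprime m n) :
    ∃ d m' n' j1 k1, Dec m n d m' n' j1 k1 := by
  have hg : 0 < Nat.gcd m n := Nat.gcd_pos_of_pos_left _ (by omega)
  obtain ⟨m', n', hco, h1, h2⟩ := Nat.exists_coprime m n
  refine ⟨Nat.gcd m n, m', n', Nat.gcdA m' n', -Nat.gcdB m' n', ?_, by linarith, by linarith,
    ?_, ?_⟩
  · unfold Nat.Coprime at hc; omega
  · have := Nat.gcd_mul_lcm m n
    apply Nat.eq_of_mul_eq_mul_left hg
    rw [this]
    generalize Nat.gcd m n = g at h1 h2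
    rw [h1, h2]
    ring
  · have := Nat.gcd_eq_gcd_ab m' n'
    rw [hco] at this
    push_cast at this
    linarith

namespace Dec

variable {m n d m' n' : ℕ} {j1 k1 : ℤ} (H : Dec m n d m' n' j1 k1) (hm : 3 ≤ m) (hn : 3 ≤ n)
include H hm hn

lemma pos : (0 : ℝ) < d ∧ (0 : ℝ) < m' ∧ (0 : ℝ) < n' := by
  have h1 := H.hm; have h2 := H.hn; have h3 := H.hd
  refine ⟨by positivity, ?_, ?_⟩
  · have : m' ≠ 0 := by rintro rfl; omega
    positivity
  · have : n' ≠ 0 := by rintro rfl; omega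
    positivity

lemma angle (j k : ℤ) : 2 * π * j / n - 2 * π * k / m =
    2 * π * ((j * m' - k * n' : ℤ) : ℝ) / (Nat.lcm m n : ℝ) := by
  obtain ⟨p1, p2, p3⟩ := H.pos hm hn
  rw [H.hL]
  conv_lhs => rw [H.hm, H.hn]
  push_cast; field_simp

omit H in
lemma L3 : 3 ≤ Nat.lcm m n :=
  le_trans hm (Nat.le_of_dvd (Nat.lcm_pos (by omega) (by omega)) (Nat.dvd_lcm_left _ _))

lemma term {r θ x y : ℝ} (F : FeasJK m n r θ x y) (t : ℤ) (i : ℕ) :
    x * cos (2 * π * ((t * j1 : ℤ) : ℝ) / n + 2 * π * i / d) +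
      y * sin (2 * π * ((t * j1 : ℤ) : ℝ) / n + 2 * π * i / d) +
      r * cos (2 * π * t / (Nat.lcm m n : ℝ) - θ) ≤ 1 := by
  obtain ⟨p1, p2, p3⟩ := H.pos hm hn
  have h := F (t * j1 + i * n') (t * k1 + i * m')
  rw [H.angle hm hn] at h
  have e1 : (t * j1 + i * n') * m' - (t * k1 + i * m') * n' = t := by
    linear_combination t * H.hb
  have e2 : 2 * π * ((t * j1 + i * n' : ℤ) : ℝ) / n =
      2 * π * ((t * j1 : ℤ) : ℝ) / n + 2 * π * i / d := by
    rw [H.hn]; push_cast; field_simp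
  rw [e1, e2] at h
  exact h

lemma avg {r θ x y : ℝ} (F : FeasJK m n r θ x y) (t : ℤ) :
    r * cos (2 * π * t / (Nat.lcm m n : ℝ) - θ) ≤ 1 := by
  obtain ⟨p1, p2, p3⟩ := H.pos hm hn
  have h := Finset.sum_le_sum (s := Finset.range d) (fun i _ => H.term hm hn F t i)
  rw [Finset.sum_add_distrib, sum_roots H.hd] at h
  simp only [Finset.sum_const, Finset.card_range, nsmul_eq_mul, zero_add] at h
  exact le_of_mul_le_mul_left h p1

omit H in
lemma near (θ : ℝ) : ∃ t : ℤ, |2 * π * t / (Nat.lcm m n : ℝ) - θ| ≤ π / (Nat.lcm m n : ℝ) := by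
  have hL : (0 : ℝ) < (Nat.lcm m n : ℝ) := by
    have := L3 hm hn
    positivity
  set L : ℝ := (Nat.lcm m n : ℝ)
  have hpi := pi_pos
  set t : ℤ := ⌊θ * L / (2 * π) + 1 / 2⌋
  have w1 : (t : ℝ) ≤ θ * L / (2 * π) + 1 / 2 := Int.floor_le _
  have w2 : θ * L / (2 * π) + 1 / 2 < t + 1 := Int.lt_floor_add_one _
  refine ⟨t, ?_⟩
  have e : 2 * π * t / L - θ = (t - θ * L / (2 * π)) * 2 * (π / L) := by field_simp
  have hp : 0 < π / L := by positivity
  rw [e, abs_le]
  constructor <;> nlinarith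

lemma upper {r θ x y : ℝ} (hr : 0 < r) (F : FeasJK m n r θ x y) :
    r * cos (π / (Nat.lcm m n : ℝ)) ≤ 1 := by
  obtain ⟨t, ht⟩ := near hm hn θ
  have h1 := H.avg hm hn F t
  have hL : (3 : ℝ) ≤ (Nat.lcm m n : ℝ) := by exact_mod_cast L3 hm hn
  have h2 : cos (π / (Nat.lcm m n : ℝ)) ≤ cos (2 * π * t / (Nat.lcm m n : ℝ) - θ) := by
    rw [← cos_abs (2 * π * t / (Nat.lcm m n : ℝ) - θ)]
    apply cos_le_cos_of_nonneg_of_le_pi (abs_nonneg _) _ ht
    rw [div_le_iff₀ (by positivity)]; nlinarith [pi_pos]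
  have := mul_le_mul_of_nonneg_left h2 hr.le
  linarith

lemma eq_theta {r θ x y : ℝ} (hr : 0 < r) (F : FeasJK m n r θ x y)
    (heq : r * cos (π / (Nat.lcm m n : ℝ)) = 1) :
    ∃ t : ℤ, θ = π / (Nat.lcm m n : ℝ) + 2 * π * t / (Nat.lcm m n : ℝ) := by
  obtain ⟨t, ht⟩ := near hm hn θ
  have h1 := H.avg hm hn F t
  have hL : (3 : ℝ) ≤ (Nat.lcm m n : ℝ) := by exact_mod_cast L3 hm hn
  rcases ht.eq_or_lt with k | k
  · rcases abs_eq_abs.mp (k.trans (abs_of_pos (by have := pi_pos; positivity)).symm) with h | h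
    · exact ⟨t - 1, by push_cast; linear_combination -h⟩
    · exact ⟨t, by linear_combination -h⟩
  · exfalso
    have h2 : cos (π / (Nat.lcm m n : ℝ)) < cos (2 * π * t / (Nat.lcm m n : ℝ) - θ) := by
      rw [← cos_abs (2 * π * t / (Nat.lcm m n : ℝ) - θ)]
      apply cos_lt_cos_of_nonneg_of_le_pi (abs_nonneg _) _ k
      rw [div_le_iff₀ (by positivity)]; nlinarith [pi_pos]
    have := mul_lt_mul_of_pos_left h2 hr
    linarith

lemma tight {r θ x y : ℝ} (F : FeasJK m n r θ x y) (t : ℤ)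
    (ht : r * cos (2 * π * t / (Nat.lcm m n : ℝ) - θ) = 1) (i : ℕ) (hi : i < d) :
    x * cos (2 * π * ((t * j1 : ℤ) : ℝ) / n + 2 * π * i / d) +
      y * sin (2 * π * ((t * j1 : ℤ) : ℝ) / n + 2 * π * i / d) = 0 := by
  have hs := sum_roots H.hd x y (2 * π * ((t * j1 : ℤ) : ℝ) / n)
  rw [Finset.sum_eq_zero_iff_of_nonpos] at hs
  · exact hs i (Finset.mem_range.mpr hi)
  · intro i _
    have := H.term hm hn F t i
    linarith

omit H hm hn in
lemma two_zero {x y u v : ℝ} (h1 : x * cos u + y * sin u = 0) (h2 : x * cos v + y * sin v = 0)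
    (h : sin (v - u) ≠ 0) : x = 0 ∧ y = 0 := by
  constructor
  · have : x * sin (v - u) = 0 := by
      rw [sin_sub]; linear_combination sin v * h1 - sin u * h2
    exact (mul_eq_zero.mp this).resolve_right h
  · have : y * sin (v - u) = 0 := by
      rw [sin_sub]; linear_combination cos u * h2 - cos v * h1
    exact (mul_eq_zero.mp this).resolve_right h

lemma eq_centre {r θ x y : ℝ} (F : FeasJK m n r θ x y)
    (heq : r * cos (π / (Nat.lcm m n : ℝ)) = 1) (t : ℤ)
    (hθ : θ = π / (Nat.lcm m n : ℝ) + 2 * π * t / (Nat.lcm m n : ℝ)) : x = 0 ∧ y = 0 := by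
  obtain ⟨p1, p2, p3⟩ := H.pos hm hn
  have hd := H.hd
  have t1 : r * cos (2 * π * t / (Nat.lcm m n : ℝ) - θ) = 1 := by
    rw [← heq, hθ, ← cos_neg]; congr 2; ring
  have t2 : r * cos (2 * π * ((t + 1 : ℤ) : ℝ) / (Nat.lcm m n : ℝ) - θ) = 1 := by
    rw [← heq, hθ]; congr 2; push_cast; ring
  have a0 := H.tight hm hn F t t1 0 (by omega)
  have a1 := H.tight hm hn F t t1 1 (by omega)
  have a2 := H.tight hm hn F (t + 1) t2 0 (by omega)
  rcases hd.eq_or_lt with k | k
  · apply two_zero a0 a2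
    intro hz
    obtain ⟨N, hN⟩ := sin_eq_zero_iff.mp hz
    have hn' : (n : ℝ) = 2 * n' := by rw [H.hn, ← k]; push_cast; ring
    have e : (N : ℝ) * n' = j1 := by
      rw [hn'] at hN
      have hpi := pi_pos
      push_cast at hN
      simp only [mul_zero, zero_div, add_zero] at hN
      field_simp at hN
      linarith
    have e' : N * n' = j1 := by exact_mod_cast e
    have hb := H.hb
    have : (n' : ℤ) ∣ 1 := ⟨N * m' - k1, by rw [← e'] at hb; linear_combination -hb⟩
    have := Int.le_of_dvd one_pos this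
    have h5 := H.hn
    rw [← k] at h5
    omega
  · apply two_zero a0 a1
    have := sin_two_pi_div_pos (k := d) k
    convert this.ne' using 2
    push_cast; ring

lemma feas {r : ℝ} (hr : 0 < r) (heq : r * cos (π / (Nat.lcm m n : ℝ)) = 1) :
    FeasJK m n r (π / (Nat.lcm m n : ℝ)) 0 0 := by
  intro j k
  rw [H.angle hm hn]
  have hL := L3 hm hn
  have h := cos_nearest (k := Nat.lcm m n) (by omega) (y := -(π / (Nat.lcm m n : ℝ)))
    (by rw [abs_neg, abs_of_nonneg (by positivity)]) (j * m' - k * n')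
  rw [cos_neg, add_comm, ← sub_eq_add_neg] at h
  have := mul_le_mul_of_nonneg_left h hr.le
  linarith

end Dec

end Pool.Agent.Lib.MP_1e894a_co
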