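import Mathlib
import Pool.Agent.Lib.MP_1e894a_co.Core

namespace Pool.Agent.Lib.MP_1e894a_co

open Real

lemma gon_rot {m : ℕ} (hm : 0 < m) (γ ν : ℂ) (q : ℤ) :
    gon m γ (ν * E (2 * π * q / m)) = gon m γ ν := by
  rw [gon_eq m hm, gon_eq m hm]
  congr 1
  ext z
  constructor
  · rintro ⟨j, rfl⟩
    refine ⟨q + j, ?_⟩
    simp only [mul_assoc ν, ← E_add]
    congr 3; push_cast; ring
  · rintro ⟨j, rfl⟩
    refine ⟨j - q, ?_⟩
    simp only [mul_assoc ν, ← E_add]
    congr 3; push_cast; ring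

lemma exists_nat_E {n : ℕ} (hn : 0 < n) (j : ℤ) :
    ∃ l : ℕ, E (2 * π * l / n) = E (2 * π * j / n) := by
  have hk' : (0 : ℤ) < n := by exact_mod_cast hn
  have hn0 : (n : ℝ) ≠ 0 := by positivity
  have h1 : 0 ≤ j % n := Int.emod_nonneg _ hk'.ne'
  have h3 : (((j % n).toNat : ℕ) : ℝ) = ((j % n : ℤ) : ℝ) := by
    rw [← Int.cast_natCast, Int.toNat_of_nonneg h1]
  have h4 : (j : ℝ) = ((j % n : ℤ) : ℝ) + n * ((j / n : ℤ) : ℝ) := by
    exact_mod_cast (Int.emod_add_mul_ediv j n).symm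
  refine ⟨(j % n).toNat, ?_⟩
  rw [h3, ← E_add_int _ (j / n)]
  congr 1
  conv_rhs => rw [h4]
  field_simp

lemma mid_eq (n : ℕ) (a : ℂ) (l : ℕ) :
    mid n a l = a * ((cos (π / n) : ℝ) * E (π / n)) * E (2 * π * l / n) := by
  unfold mid
  have h1 := vertex_eq n (l : ℝ)
  have h2 := vertex_eq n ((l : ℝ) + 1)
  push_cast at h1 h2
  rw [h1, h2]
  have e1 : E (2 * π * l / n) = E (π / n + 2 * π * l / n) * E (-(π / n)) := by
    rw [← E_add]; congr 1; ring
  have e2 : E (2 * π * (l + 1) / n) = E (π / n + 2 * π * l / n) * E (π / n) := by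
    rw [← E_add]; congr 1; ring
  have e3 : E (-(π / n)) + E (π / n) = 2 * ((cos (π / n) : ℝ) : ℂ) := by
    apply Complex.ext
    · simp only [Complex.add_re, E_re, cos_neg, Complex.mul_re, Complex.ofReal_re,
        Complex.ofReal_im, Complex.re_ofNat, Complex.im_ofNat]; ring
    · simp only [Complex.add_im, E_im, sin_neg, Complex.mul_im, Complex.ofReal_re,
        Complex.ofReal_im, Complex.re_ofNat, Complex.im_ofNat]; ring
  have e4 : a * ((cos (π / n) : ℝ) * E (π / n)) * E (2 * π * l / n) =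
      a * (cos (π / n) : ℝ) * E (π / n + 2 * π * l / n) := by rw [E_add]; ring
  rw [e4]
  conv_lhs => rw [e1, e2]
  linear_combination (a * E (π / n + 2 * π * l / n) / 2) * e3

def Crit (m n : ℕ) (γ ν : ℂ) : Prop :=
  ∀ j k : ℤ, ((γ + ν * E (2 * π * k / m)) * E (-(2 * π * j / n))).re ≤ 1

lemma subset_iff {m n : ℕ} (hm : 3 ≤ m) (hn : 3 ≤ n) (c a : ℂ) (ha : a ≠ 0) (γ ν : ℂ) :
    gon m (c + a * ((cos (π / n) : ℝ) * E (π / n)) * γ) (a * ((cos (π / n) : ℝ) * E (π / n)) * ν)
      ⊆ gon n c a ↔ Crit m n γ ν := by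
  have hc := cos_pi_div_pos hn
  have h1 := gon_image n c a 0 1
  simp only [mul_zero, add_zero, mul_one] at h1
  have h2 := gon_image m c a ((cos (π / n) : ℝ) * E (π / n) * γ) ((cos (π / n) : ℝ) * E (π / n) * ν)
  rw [← mul_assoc a _ γ, ← mul_assoc a _ ν] at h2
  have hinj : Function.Injective (fun z : ℂ => c + a * z) := by
    intro z w h
    exact mul_left_cancel₀ ha (add_left_cancel h)
  rw [← h1, ← h2, Set.image_subset_image_iff hinj, gon_eq m (by omega)]
  have hconv : Convex ℝ (gon n 0 1) := convex_convexHull ℝ _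
  rw [hconv.convexHull_subset_iff, Set.range_subset_iff]
  have key : ∀ j k : ℤ, sup n j ((cos (π / n) : ℝ) * E (π / n) * γ +
      (cos (π / n) : ℝ) * E (π / n) * ν * E (2 * π * k / m)) =
      cos (π / n) * ((γ + ν * E (2 * π * k / m)) * E (-(2 * π * j / n))).re := by
    intro j k
    unfold sup
    rw [← Complex.re_ofReal_mul]
    congr 1
    have : E (-(2 * π * j / n)) = E (π / n) * E (-((2 * j + 1) * π / n)) := by
      rw [← E_add]; congr 1; ring
    rw [this]; ring
  constructor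
  · intro h j k
    have := (mem_gon_iff hn _).mp (h k) j
    rw [key] at this
    exact le_of_mul_le_mul_left (by linarith) hc
  · intro h k
    rw [mem_gon_iff hn]
    intro j
    rw [key]
    have := mul_le_mul_of_nonneg_left (h j k) hc.le
    linarith

lemma crit_iff (m n : ℕ) (γ : ℂ) (r θ : ℝ) :
    Crit m n γ (r * E θ) ↔ FeasJK m n r θ γ.re γ.im := by
  unfold Crit FeasJK
  apply forall_congr'; intro j
  apply forall_congr'; intro k
  have : ((γ + r * E θ * E (2 * π * k / m)) * E (-(2 * π * j / n))).re =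
      γ.re * cos (2 * π * j / n) + γ.im * sin (2 * π * j / n) +
        r * cos (2 * π * j / n - 2 * π * k / m - θ) := by
    rw [add_mul, mul_assoc (r * E θ), ← E_add, mul_assoc (r : ℂ), ← E_add, Complex.add_re,
      Complex.re_ofReal_mul,
      E_re, Complex.mul_re, E_re, E_im, cos_neg, sin_neg, ← cos_neg (θ + _)]
    congr 1
    · ring
    · congr 2; ring
  rw [this]

lemma crit_rot {m n : ℕ} {γ ν : ℂ} (h : Crit m n γ ν) (l : ℕ) :
    Crit m n (E (2 * π * l / n) * γ) (E (2 * π * l / n) * ν) := by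
  intro j k
  have := h (j - l) k
  convert this using 2
  have e : E (-(2 * π * ((j - l : ℤ) : ℝ) / n)) = E (2 * π * l / n) * E (-(2 * π * j / n)) := by
    rw [← E_add]; congr 1; push_cast; ring
  rw [e]; ring

section core

variable {m n : ℕ} (hm : 3 ≤ m) (hn : 3 ≤ n)
include hm hn

omit hm hn in
lemma vFun_eq (s : ℝ) : vFun m n s = vG (alpha m n) (eps m n) s := rfl
omit hm hn in
lemma rhoFun_eq (s : ℝ) : rhoFun m n s = rG (alpha m n) (eps m n) s := rfl

lemma min_pos (hc : Nat.Coprime m n) :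
    0 < min (vFun m n ((dInt m n : ℝ) / 2)) (vFun m n (((dInt m n : ℝ) - 1) / 2)) := by
  have P := par hm hn hc
  have h1 := P.vG_pos (Or.inl rfl)
  have h2 := P.vG_pos (Or.inr rfl)
  rw [vG_abs] at h1 h2
  exact lt_min h1 h2

lemma radius_pos : 0 < radius m n := by
  unfold radius
  split_ifs with hc
  · exact one_div_pos.mpr (min_pos hm hn hc)
  · exact one_div_pos.mpr (cos_pi_div_pos (Dec.L3 hm hn))

lemma le_radius {r θ x y : ℝ} (hr : 0 < r) (F : FeasJK m n r θ x y) : r ≤ radius m n := by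
  unfold radius
  split_ifs with hc
  · rw [le_div_iff₀ (min_pos hm hn hc)]
    exact upper_signed (par hm hn hc) hr ((feasJK_iff hm hn hc _ _ _ _).mp F)
  · obtain ⟨d, m', n', j1, k1, H⟩ := exists_dec hm hc
    rw [le_div_iff₀ (cos_pi_div_pos (Dec.L3 hm hn))]
    exact H.upper hm hn hr F

omit hm hn in
lemma positions_nonempty : (positions m n).Nonempty := by
  unfold positions radius
  split_ifs with hc
  · rcases min_choice (vFun m n ((dInt m n : ℝ) / 2)) (vFun m n (((dInt m n : ℝ) - 1) / 2))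
      with h | h
    · exact ⟨_, _, Or.inl rfl, by rw [h], rfl⟩
    · exact ⟨_, _, Or.inr rfl, by rw [h], rfl⟩
  · exact Set.singleton_nonempty _

lemma positions_crit {x : ℂ × ℂ} (hx : x ∈ positions m n) :
    Crit m n x.1 x.2 ∧ ‖x.2‖ = radius m n := by
  have hr := radius_pos hm hn
  unfold positions at hx
  split_ifs at hx with hc
  · obtain ⟨s, hs, hv, rfl⟩ := hx
    have P := par hm hn hc
    have hp := P.vG_pos hs
    rw [vG_abs] at hp
    have hv' : radius m n * vG (alpha m n) (eps m n) s = 1 := by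
      rw [← hv, vFun_eq]; field_simp
    constructor
    · have F := feas_pos hm hn hc hs hr hv'
      change Crit m n (-((rhoFun m n s * radius m n : ℝ) : ℂ) * E (s * alpha m n))
        ((radius m n : ℝ) * E (s * eps m n))
      rw [crit_iff, ← Complex.ofReal_neg, Complex.re_ofReal_mul, Complex.im_ofReal_mul, E_re, E_im]
      exact F
    · change ‖((radius m n : ℝ) : ℂ) * E (s * eps m n)‖ = _
      rw [norm_mul, norm_E, mul_one, Complex.norm_real, Real.norm_of_nonneg hr.le]
  · obtain ⟨d, m', n', j1, k1, H⟩ := exists_dec hm hc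
    rw [Set.mem_singleton_iff] at hx
    subst hx
    have hv' : radius m n * cos (π / (Nat.lcm m n : ℝ)) = 1 := by
      have := cos_pi_div_pos (Dec.L3 hm hn)
      unfold radius; rw [if_neg hc]; field_simp
    constructor
    · change Crit m n 0 ((radius m n : ℝ) * E (π / (Nat.lcm m n : ℝ)))
      rw [crit_iff]
      exact H.feas hm hn hr hv'
    · change ‖((radius m n : ℝ) : ℂ) * E (π / (Nat.lcm m n : ℝ))‖ = _
      rw [norm_mul, norm_E, mul_one, Complex.norm_real, Real.norm_of_nonneg hr.le]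

lemma eq_positions {θ : ℝ} {γ : ℂ} (F : FeasJK m n (radius m n) θ γ.re γ.im) :
    ∃ x ∈ positions m n, ∃ l : ℕ, γ = E (2 * π * l / n) * x.1 ∧
      ∃ q : ℤ, E (2 * π * l / n) * x.2 = (radius m n : ℝ) * E θ * E (2 * π * q / m) := by
  have hr := radius_pos hm hn
  have hn0 : (n : ℝ) ≠ 0 := by positivity
  have hm0 : (m : ℝ) ≠ 0 := by positivity
  by_cases hc : Nat.Coprime m n
  · have hmin := min_pos hm hn hc
    have heq : radius m n * min (vG (alpha m n) (eps m n) ((dInt m n : ℝ) / 2))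
        (vG (alpha m n) (eps m n) (((dInt m n : ℝ) - 1) / 2)) = 1 := by
      unfold radius; rw [if_pos hc, ← vFun_eq, ← vFun_eq]; field_simp
    obtain ⟨s, hs, hv, l, h1, h2, h3⟩ :=
      eq_signed (par hm hn hc) hr ((feasJK_iff hm hn hc _ _ _ _).mp F) heq
    obtain ⟨g, hg⟩ := invMod_spec hn hc
    have hg' : (invMod m n : ℝ) * m = 1 + n * g := by exact_mod_cast hg
    obtain ⟨l', hl'⟩ := exists_nat_E (n := n) (by omega) (l * invMod m n)
    refine ⟨(-((rhoFun m n s * radius m n : ℝ) : ℂ) * E (s * alpha m n),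
      ((radius m n : ℝ) : ℂ) * E (s * eps m n)), ?_, l', ?_, l * g, ?_⟩
    · unfold positions
      rw [if_pos hc]
      refine ⟨s, hs, ?_, rfl⟩
      have hp := (par hm hn hc).vG_pos hs
      rw [vG_abs] at hp
      rw [vFun_eq, div_eq_iff hp.ne', hv]
    · rw [hl']
      have e : E (2 * π * ((l * invMod m n : ℤ) : ℝ) / n) *
          (-((rhoFun m n s * radius m n : ℝ) : ℂ) * E (s * alpha m n)) =
          ((-(rhoFun m n s * radius m n) : ℝ) : ℂ) * E ((s + l) * alpha m n) := by
        have : (s + l) * alpha m n = 2 * π * ((l * invMod m n : ℤ) : ℝ) / n + s * alpha m n := by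
          unfold alpha; push_cast; ring
        rw [this, E_add]; push_cast; ring
      simp only
      rw [e]
      apply Complex.ext
      · rw [Complex.re_ofReal_mul, E_re, h2, rhoFun_eq]
      · rw [Complex.im_ofReal_mul, E_im, h3, rhoFun_eq]
    · rw [hl', h1]
      simp only
      rw [mul_left_comm, ← E_add, mul_assoc ((radius m n : ℝ) : ℂ), ← E_add]
      congr 2
      unfold eps; push_cast; field_simp; linear_combination l * hg'
  · obtain ⟨d, m', n', j1, k1, H⟩ := exists_dec hm hc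
    have hv' : radius m n * cos (π / (Nat.lcm m n : ℝ)) = 1 := by
      have := cos_pi_div_pos (Dec.L3 hm hn)
      unfold radius; rw [if_neg hc]; field_simp
    obtain ⟨t, ht⟩ := H.eq_theta hm hn hr F hv'
    obtain ⟨h1, h2⟩ := H.eq_centre hm hn F hv' t ht
    obtain ⟨l', hl'⟩ := exists_nat_E (n := n) (by omega) (t * j1)
    refine ⟨(0, ((radius m n : ℝ) : ℂ) * E (π / (Nat.lcm m n : ℝ))), ?_, l', ?_, t * k1, ?_⟩
    · unfold positions
      rw [if_neg hc]
      rfl
    · simp only [mul_zero]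
      exact Complex.ext h1 h2
    · rw [hl', ht]
      simp only
      rw [mul_left_comm, ← E_add, mul_assoc ((radius m n : ℝ) : ℂ), ← E_add]
      congr 2
      have h3 := H.angle hm hn (t * j1) (t * k1)
      have e1 : t * j1 * m' - t * k1 * n' = t := by linear_combination t * H.hb
      rw [e1] at h3
      linarith

lemma ratio_eq (c a c' : ℂ) (ha : a ≠ 0) (ν : ℂ) :
    area (gon m c' (a * ((cos (π / n) : ℝ) * E (π / n)) * ν)) / area (gon n c a) =
      m * sin (2 * π / m) * ‖ν‖ ^ 2 / (2 * n * tan (π / n)) := by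
  have hc := cos_pi_div_pos hn
  have hs := sin_pi_div_pos hn
  have hn0 : (n : ℝ) ≠ 0 := by positivity
  have ha' : ‖a‖ ≠ 0 := norm_ne_zero_iff.mpr ha
  rw [area_gon hm, area_gon hn, norm_mul, norm_mul, norm_mul, norm_E, Complex.norm_real,
    Real.norm_of_nonneg hc.le, tan_eq_sin_div_cos]
  have h : 2 * π / n = 2 * (π / n) := by ring
  rw [h, sin_two_mul]
  field_simp

lemma const_pos : 0 < m * sin (2 * π / m) / (2 * n * tan (π / n)) := by
  have hc := cos_pi_div_pos hn
  have hs := sin_pi_div_pos hn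
  have hs2 := sin_two_pi_div_pos hm
  rw [tan_eq_sin_div_cos]
  positivity

end core

theorem main (m n : ℕ) (hm : 3 ≤ m) (hn : 3 ≤ n) (c a : ℂ) (ha : a ≠ 0) :
    IsGreatest {x : ℝ | ∃ Q : Set ℂ, IsRegularGon m Q ∧ Q ⊆ gon n c a ∧
        x = area Q / area (gon n c a)} (bestRatio m n) ∧
      ∀ Q : Set ℂ, IsRegularGon m Q →
        ((Q ⊆ gon n c a ∧ area Q / area (gon n c a) = bestRatio m n) ↔
          ∃ x ∈ positions m n, ∃ l : ℕ,
            Q = gon m (c + mid n a l * x.1) (mid n a l * x.2)) := by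
  have hr := radius_pos hm hn
  have hK := const_pos hm hn
  have hc := cos_pi_div_pos hn
  set u : ℂ := a * ((cos (π / n) : ℝ) * E (π / n)) with hu
  have hu0 : u ≠ 0 := mul_ne_zero ha (mul_ne_zero (by exact_mod_cast hc.ne') (E_ne_zero _))
  have back : ∀ x ∈ positions m n, ∀ l : ℕ,
      IsRegularGon m (gon m (c + mid n a l * x.1) (mid n a l * x.2)) ∧
      gon m (c + mid n a l * x.1) (mid n a l * x.2) ⊆ gon n c a ∧
      area (gon m (c + mid n a l * x.1) (mid n a l * x.2)) / area (gon n c a) =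
        bestRatio m n := by
    intro x hx l
    obtain ⟨h1, h2⟩ := positions_crit hm hn hx
    have hx2 : x.2 ≠ 0 := by rw [← norm_ne_zero_iff, h2]; exact hr.ne'
    rw [mid_eq, ← hu, mul_assoc u, mul_assoc u]
    refine ⟨⟨_, _, mul_ne_zero hu0 (mul_ne_zero (E_ne_zero _) hx2), rfl⟩, ?_, ?_⟩
    · exact (subset_iff hm hn c a ha _ _).mpr (crit_rot h1 l)
    · rw [hu, ratio_eq hm hn c a _ ha, norm_mul, norm_E, one_mul, h2]; rfl
  have norm : ∀ Q, IsRegularGon m Q → ∃ (γ : ℂ) (r θ : ℝ), 0 < r ∧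
      Q = gon m (c + u * γ) (u * (r * E θ)) := by
    rintro Q ⟨c', a', ha', rfl⟩
    refine ⟨(c' - c) / u, ‖a' / u‖, Complex.arg (a' / u),
      norm_pos_iff.mpr (div_ne_zero ha' hu0), ?_⟩
    have : (‖a' / u‖ : ℂ) * E (Complex.arg (a' / u)) = a' / u :=
      Complex.norm_mul_exp_arg_mul_I _
    rw [this]
    congr 1 <;> field_simp
    ring
  have rat : ∀ (γ : ℂ) (r θ : ℝ), 0 < r →
      area (gon m (c + u * γ) (u * (r * E θ))) / area (gon n c a) =
        m * sin (2 * π / m) / (2 * n * tan (π / n)) * r ^ 2 := by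
    intro γ r θ hr'
    rw [hu, ratio_eq hm hn c a _ ha, norm_mul, norm_E, mul_one, Complex.norm_real,
      Real.norm_of_nonneg hr'.le]
    ring
  have best : bestRatio m n = m * sin (2 * π / m) / (2 * n * tan (π / n)) * radius m n ^ 2 := by
    unfold bestRatio; ring
  refine ⟨⟨?_, ?_⟩, ?_⟩
  · obtain ⟨x, hx⟩ := positions_nonempty (m := m) (n := n)
    obtain ⟨h1, h2, h3⟩ := back x hx 0
    exact ⟨_, h1, h2, h3.symm⟩
  · rintro _ ⟨Q, hQ, hsub, rfl⟩
    obtain ⟨γ, r, θ, hr', rfl⟩ := norm Q hQ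
    have F := (crit_iff m n γ r θ).mp ((subset_iff hm hn c a ha _ _).mp hsub)
    have h := le_radius hm hn hr' F
    rw [rat γ r θ hr', best]
    exact mul_le_mul_of_nonneg_left (pow_le_pow_left₀ hr'.le h 2) hK.le
  · intro Q hQ
    constructor
    · rintro ⟨hsub, heq⟩
      obtain ⟨γ, r, θ, hr', rfl⟩ := norm Q hQ
      have F := (crit_iff m n γ r θ).mp ((subset_iff hm hn c a ha _ _).mp hsub)
      rw [rat γ r θ hr', best] at heq
      have h1 : r = radius m n :=
        (pow_left_inj₀ hr'.le hr.le two_ne_zero).mp (mul_left_cancel₀ hK.ne' heq)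
      subst h1
      obtain ⟨x, hx, l, e1, q, e2⟩ := eq_positions hm hn F
      refine ⟨x, hx, l, ?_⟩
      rw [mid_eq, ← hu, mul_assoc u, mul_assoc u, ← e1, e2, ← mul_assoc u _ (E (2 * π * q / m)),
        gon_rot (by omega)]
    · rintro ⟨x, hx, l, rfl⟩
      exact (back x hx l).2

end Pool.Agent.Lib.MP_1e894a_co
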